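import Pool.Agent.Work.MP_054302_co.Upper

/-!
Dense bipartite graphs on six or seven vertices.
-/

open Finset SimpleGraph

namespace Pool.Agent.Work.MP_054302_co

variable {a b c d k : ℕ}

/-- The number of entries of a pattern. -/
def cnt (M : Fin a → Fin b → Bool) : ℕ := ∑ i, ∑ j, if M i j = true then 1 else 0

lemma cnt_eq (M : Fin a → Fin b → Bool) :
    cnt M = #(univ.filter fun p : Fin a × Fin b => M p.1 p.2 = true) := by
  rw [cnt, card_filter, Fintype.sum_prod_type]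

lemma cnt_le (M : Fin a → Fin b → Bool) : cnt M ≤ a * b := by
  rw [cnt_eq]
  refine (card_le_univ _).trans ?_
  simp

lemma sub_full (M : Fin a → Fin b → Bool) (h : a * b ≤ cnt M) : Sub (full a b) M := by
  refine ⟨id, id, Function.injective_id, Function.injective_id, fun i j _ => ?_⟩
  have h1 : (univ.filter fun p : Fin a × Fin b => M p.1 p.2 = true) = univ := by
    refine eq_univ_of_card _ (le_antisymm (card_le_univ _) ?_)
    rw [← cnt_eq]; simpa using h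
  have h2 : (i, j) ∈ (univ.filter fun p : Fin a × Fin b => M p.1 p.2 = true) := by
    rw [h1]; exact mem_univ _
  exact (mem_filter.1 h2).2

lemma pattern_aux (G : SimpleGraph (Fin k)) (p : Fin k → Prop) [DecidablePred p]
    (hp : ∀ u v, G.Adj u v → (p u ↔ ¬ p v)) :
    ∃ M : Fin #(univ.filter p) → Fin #(univ.filter fun v => ¬ p v) → Bool,
      Has G M ∧ G.edgeSet.ncard ≤ cnt M := by
  classical
  set S := univ.filter p
  set T := univ.filter fun v => ¬ p v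
  let s := S.orderEmbOfFin rfl
  let t := T.orderEmbOfFin rfl
  have hs : ∀ u, p u ↔ ∃ i, s i = u := fun u => by
    have := Set.ext_iff.1 (S.range_orderEmbOfFin rfl) u
    simp only [Set.mem_range, mem_coe, S, mem_filter, mem_univ, true_and] at this
    exact this.symm
  have ht : ∀ u, ¬ p u ↔ ∃ i, t i = u := fun u => by
    have := Set.ext_iff.1 (T.range_orderEmbOfFin rfl) u
    simp only [Set.mem_range, mem_coe, T, mem_filter, mem_univ, true_and] at this
    exact this.symm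
  refine ⟨fun i j => decide (G.Adj (s i) (t j)), ⟨s, t, s.injective, t.injective, ?_, ?_⟩, ?_⟩
  · intro i j h
    exact (ht (t j)).2 ⟨j, rfl⟩ (h ▸ (hs (s i)).2 ⟨i, rfl⟩)
  · intro i j h
    simpa using h
  · rw [cnt_eq, ← coe_edgeFinset, Set.ncard_coe_finset]
    refine card_le_card_of_surjOn (fun x => s(s x.1, t x.2)) ?_
    intro e he
    induction e using Sym2.ind with
    | h u v =>
      have hadj : G.Adj u v := by simpa using he
      by_cases hu : p u
      · obtain ⟨i, rfl⟩ := (hs u).1 hu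
        obtain ⟨j, rfl⟩ := (ht v).1 ((hp _ _ hadj).1 hu)
        exact ⟨(i, j), by simpa using hadj, rfl⟩
      · have hv : p v := by
          by_contra hv
          exact hu ((hp _ _ hadj).2 hv)
        obtain ⟨i, rfl⟩ := (hs v).1 hv
        obtain ⟨j, rfl⟩ := (ht u).1 hu
        exact ⟨(i, j), by simpa using hadj.symm, Sym2.eq_swap⟩

lemma pattern (G : SimpleGraph (Fin k)) (hG : G.Colorable 2) :
    ∃ a b, a + b = k ∧ a ≤ b ∧ ∃ M : Fin a → Fin b → Bool,
      Has G M ∧ G.edgeSet.ncard ≤ cnt M := by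
  obtain ⟨C⟩ := hG
  have h2 : ∀ x y : Fin 2, x ≠ y → (x = 0 ↔ ¬ y = 0) := by decide
  have hp : ∀ u v, G.Adj u v → (C u = 0 ↔ ¬ C v = 0) := fun u v h => h2 _ _ (C.valid h)
  have hc := card_filter_add_card_filter_not (s := (univ : Finset (Fin k))) (fun u => C u = 0)
  rw [card_univ, Fintype.card_fin] at hc
  obtain ⟨M, hM, hle⟩ := pattern_aux G (fun u => C u = 0) hp
  rcases le_total #(univ.filter fun u => C u = 0) #(univ.filter fun u => ¬ C u = 0) with h | h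
  · exact ⟨_, _, hc, h, M, hM, hle⟩
  · refine ⟨_, _, by rw [add_comm]; exact hc, h, tr M, hM.tr, hle.trans (le_of_eq ?_)⟩
    rw [cnt, cnt, sum_comm]
    rfl

/-- Boolean search for a copy of `P` in `M`. -/
def chk (P : Fin a → Fin b → Bool) (M : Fin c → Fin d → Bool) (L₁ : List (Fin a → Fin c))
    (L₂ : List (Fin b → Fin d)) : Bool :=
  L₁.any fun σ => L₂.any fun τ => (List.finRange a).all fun i => (List.finRange b).all fun j =>
    !P i j || M (σ i) (τ j)

lemma sub_of_chk {P : Fin a → Fin b → Bool} {M : Fin c → Fin d → Bool}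
    {L₁ : List (Fin a → Fin c)} {L₂ : List (Fin b → Fin d)}
    (h1 : ∀ σ ∈ L₁, Function.Injective σ) (h2 : ∀ σ ∈ L₂, Function.Injective σ)
    (h : chk P M L₁ L₂ = true) : Sub P M := by
  simp only [chk, List.any_eq_true, List.all_eq_true, List.mem_finRange, true_imp_iff,
    Bool.or_eq_true, Bool.not_eq_true'] at h
  obtain ⟨σ, hσ, τ, hτ, h⟩ := h
  refine ⟨σ, τ, h1 σ hσ, h2 τ hτ, fun i j hij => (h i j).resolve_left ?_⟩
  simp [hij]

/-- The cube minus a vertex. -/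
def q7 : Fin 3 → Fin 4 → Bool :=
  ![![true, true, true, false], ![true, true, false, true], ![true, false, true, true]]

/-- Injections `Fin 2 → Fin 2`. -/
def L22 : List (Fin 2 → Fin 2) :=
  [![0, 1], ![1, 0]]

lemma inj22 : ∀ σ ∈ L22, Function.Injective σ := by decide +kernel

/-- Injections `Fin 2 → Fin 3`. -/
def L23 : List (Fin 2 → Fin 3) :=
  [![0, 1], ![0, 2], ![1, 0], ![1, 2], ![2, 0], ![2, 1]]

lemma inj23 : ∀ σ ∈ L23, Function.Injective σ := by decide +kernel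

/-- Injections `Fin 3 → Fin 3`. -/
def L33 : List (Fin 3 → Fin 3) :=
  [![0, 1, 2], ![0, 2, 1], ![1, 0, 2], ![1, 2, 0], ![2, 0, 1], ![2, 1, 0]]

lemma inj33 : ∀ σ ∈ L33, Function.Injective σ := by decide +kernel

/-- Injections `Fin 2 → Fin 4`. -/
def L24 : List (Fin 2 → Fin 4) :=
  [![0, 1], ![0, 2], ![0, 3], ![1, 0], ![1, 2], ![1, 3], ![2, 0], ![2, 1], ![2, 3], ![3, 0],
    ![3, 1], ![3, 2]]

lemma inj24 : ∀ σ ∈ L24, Function.Injective σ := by decide +kernel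

/-- Injections `Fin 3 → Fin 4`. -/
def L34 : List (Fin 3 → Fin 4) :=
  [![0, 1, 2], ![0, 1, 3], ![0, 2, 1], ![0, 2, 3], ![0, 3, 1], ![0, 3, 2], ![1, 0, 2],
    ![1, 0, 3], ![1, 2, 0], ![1, 2, 3], ![1, 3, 0], ![1, 3, 2], ![2, 0, 1], ![2, 0, 3],
    ![2, 1, 0], ![2, 1, 3], ![2, 3, 0], ![2, 3, 1], ![3, 0, 1], ![3, 0, 2], ![3, 1, 0],
    ![3, 1, 2], ![3, 2, 0], ![3, 2, 1]]

lemma inj34 : ∀ σ ∈ L34, Function.Injective σ := by decide +kernel

/-- Injections `Fin 4 → Fin 4`. -/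
def L44 : List (Fin 4 → Fin 4) :=
  [![0, 1, 2, 3], ![0, 1, 3, 2], ![0, 2, 1, 3], ![0, 2, 3, 1], ![0, 3, 1, 2], ![0, 3, 2, 1],
    ![1, 0, 2, 3], ![1, 0, 3, 2], ![1, 2, 0, 3], ![1, 2, 3, 0], ![1, 3, 0, 2], ![1, 3, 2, 0],
    ![2, 0, 1, 3], ![2, 0, 3, 1], ![2, 1, 0, 3], ![2, 1, 3, 0], ![2, 3, 0, 1], ![2, 3, 1, 0],
    ![3, 0, 1, 2], ![3, 0, 2, 1], ![3, 1, 0, 2], ![3, 1, 2, 0], ![3, 2, 0, 1], ![3, 2, 1, 0]]

lemma inj44 : ∀ σ ∈ L44, Function.Injective σ := by decide +kernel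

/-- Increasing injections `Fin 4 → Fin 5`. -/
def L45 : List (Fin 4 → Fin 5) :=
  [![0, 1, 2, 3], ![0, 1, 2, 4], ![0, 1, 3, 4], ![0, 2, 3, 4], ![1, 2, 3, 4]]

lemma inj45 : ∀ σ ∈ L45, Function.Injective σ := by decide +kernel

lemma eta34 (M : Fin 3 → Fin 4 → Bool) :
    M = ![![M 0 0, M 0 1, M 0 2, M 0 3], ![M 1 0, M 1 1, M 1 2, M 1 3], ![M 2 0, M 2 1, M 2 2, M 2 3]] := by
  ext i j; fin_cases i <;> fin_cases j <;> rfl

lemma eta33 (M : Fin 3 → Fin 3 → Bool) :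
    M = ![![M 0 0, M 0 1, M 0 2], ![M 1 0, M 1 1, M 1 2], ![M 2 0, M 2 1, M 2 2]] := by
  ext i j; fin_cases i <;> fin_cases j <;> rfl

lemma eta25 (M : Fin 2 → Fin 5 → Bool) :
    M = ![![M 0 0, M 0 1, M 0 2, M 0 3, M 0 4], ![M 1 0, M 1 1, M 1 2, M 1 3, M 1 4]] := by
  ext i j; fin_cases i <;> fin_cases j <;> rfl

lemma cl_ite (x : Bool) : (if x = true then 1 else 0) = x.toNat := by cases x <;> rfl

lemma cl_cnt34 (x00 x01 x02 x03 x10 x11 x12 x13 x20 x21 x22 x23 : Bool) :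
    cnt ![![x00, x01, x02, x03], ![x10, x11, x12, x13], ![x20, x21, x22, x23]] =
      x00.toNat + x01.toNat + x02.toNat + x03.toNat + (x10.toNat + x11.toNat + x12.toNat + x13.toNat) +
        (x20.toNat + x21.toNat + x22.toNat + x23.toNat) := by
  simp only [cnt, cl_ite, Fin.sum_univ_three, Fin.sum_univ_four]
  rfl

lemma cl_cnt33 (x00 x01 x02 x10 x11 x12 x20 x21 x22 : Bool) :
    cnt ![![x00, x01, x02], ![x10, x11, x12], ![x20, x21, x22]] =
      x00.toNat + x01.toNat + x02.toNat + (x10.toNat + x11.toNat + x12.toNat) +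
        (x20.toNat + x21.toNat + x22.toNat) := by
  simp only [cnt, cl_ite, Fin.sum_univ_three]
  rfl

lemma cl_cnt25 (x00 x01 x02 x03 x04 x10 x11 x12 x13 x14 : Bool) :
    cnt ![![x00, x01, x02, x03, x04], ![x10, x11, x12, x13, x14]] =
      x00.toNat + x01.toNat + x02.toNat + x03.toNat + x04.toNat +
        (x10.toNat + x11.toNat + x12.toNat + x13.toNat + x14.toNat) := by
  simp only [cnt, cl_ite, Fin.sum_univ_two, Fin.sum_univ_five]
  rfl

private lemma chk_mono {P : Fin a → Fin b → Bool} {M : Fin c → Fin d → Bool}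
    {L₁ K₁ : List (Fin a → Fin c)} {L₂ K₂ : List (Fin b → Fin d)} (h1 : L₁.Sublist K₁) (h2 : L₂.Sublist K₂)
    (h : chk P M L₁ L₂ = true) : chk P M K₁ K₂ = true := by
  simp only [chk, List.any_eq_true] at h ⊢
  obtain ⟨σ, hσ, τ, hτ, h⟩ := h
  exact ⟨σ, h1.subset hσ, τ, h2.subset hτ, h⟩

lemma decA : ∀ x00 x01 x02 x03 x10 x11 x12 x13 x20 x21 x22 x23 : Bool,
    9 ≤ cnt ![![x00, x01, x02, x03], ![x10, x11, x12, x13], ![x20, x21, x22, x23]] →
    (chk (full 2 3) ![![x00, x01, x02, x03], ![x10, x11, x12, x13], ![x20, x21, x22, x23]] L23 L34 ||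
    chk (full 3 2) ![![x00, x01, x02, x03], ![x10, x11, x12, x13], ![x20, x21, x22, x23]] L33 L24 ||
    chk q7 ![![x00, x01, x02, x03], ![x10, x11, x12, x13], ![x20, x21, x22, x23]] L33 L44) = true := by
  have k : ∀ x00 x01 x02 x03 x10 x11 x12 x13 x20 x21 x22 x23 : Bool,
      9 ≤ cnt ![![x00, x01, x02, x03], ![x10, x11, x12, x13], ![x20, x21, x22, x23]] →
      (chk (full 2 3) ![![x00, x01, x02, x03], ![x10, x11, x12, x13], ![x20, x21, x22, x23]]
        [![0, 1], ![0, 2], ![1, 2]] [![0, 1, 2], ![0, 1, 3], ![0, 2, 3], ![1, 2, 3]] ||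
      chk (full 3 2) ![![x00, x01, x02, x03], ![x10, x11, x12, x13], ![x20, x21, x22, x23]]
        (L33.take 1) [![0, 1], ![0, 2], ![0, 3], ![1, 2], ![1, 3], ![2, 3]] ||
      chk q7 ![![x00, x01, x02, x03], ![x10, x11, x12, x13], ![x20, x21, x22, x23]] (L33.take 1) L44) = true := by
    simp only [cl_cnt34]
    decide +kernel
  intro x00 x01 x02 x03 x10 x11 x12 x13 x20 x21 x22 x23 h
  have := k _ _ _ _ _ _ _ _ _ _ _ _ h
  simp only [Bool.or_eq_true] at this ⊢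
  exact this.imp (Or.imp (chk_mono (by decide +kernel) (by decide +kernel))
    (chk_mono (List.take_sublist _ _) (by decide +kernel))) (chk_mono (List.take_sublist _ _) (List.Sublist.refl _))

lemma decB : ∀ x00 x01 x02 x03 x10 x11 x12 x13 x20 x21 x22 x23 : Bool,
    10 ≤ cnt ![![x00, x01, x02, x03], ![x10, x11, x12, x13], ![x20, x21, x22, x23]] →
    chk (fulle 2 2) ![![x00, x01, x02, x03], ![x10, x11, x12, x13], ![x20, x21, x22, x23]] L33 L34 = true := by
  simp only [cl_cnt34]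
  decide +kernel

lemma decC : ∀ x00 x01 x02 x03 x10 x11 x12 x13 x20 x21 x22 x23 : Bool,
    11 ≤ cnt ![![x00, x01, x02, x03], ![x10, x11, x12, x13], ![x20, x21, x22, x23]] →
    chk (full 3 3) ![![x00, x01, x02, x03], ![x10, x11, x12, x13], ![x20, x21, x22, x23]] L33 L34 = true := by
  simp only [cl_cnt34]
  decide +kernel

lemma decD : ∀ x00 x01 x02 x10 x11 x12 x20 x21 x22 : Bool,
    8 ≤ cnt ![![x00, x01, x02], ![x10, x11, x12], ![x20, x21, x22]] →
    chk (fulle 2 2) ![![x00, x01, x02], ![x10, x11, x12], ![x20, x21, x22]] L33 L33 = true := by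
  simp only [cl_cnt33]
  decide +kernel

lemma decE : ∀ x00 x01 x02 x03 x04 x10 x11 x12 x13 x14 : Bool,
    9 ≤ cnt ![![x00, x01, x02, x03, x04], ![x10, x11, x12, x13, x14]] →
    chk (full 2 4) ![![x00, x01, x02, x03, x04], ![x10, x11, x12, x13, x14]] L22 L45 = true := by
  simp only [cl_cnt25]
  decide +kernel

lemma clA (M : Fin 3 → Fin 4 → Bool) (h : 9 ≤ cnt M) :
    Sub (full 2 3) M ∨ Sub (full 3 2) M ∨ Sub q7 M := by
  rw [eta34 M] at h ⊢
  have := decA _ _ _ _ _ _ _ _ _ _ _ _ h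
  simp only [Bool.or_eq_true] at this
  rcases this with (h | h) | h
  · exact Or.inl (sub_of_chk inj23 inj34 h)
  · exact Or.inr (Or.inl (sub_of_chk inj33 inj24 h))
  · exact Or.inr (Or.inr (sub_of_chk inj33 inj44 h))

lemma clB (M : Fin 3 → Fin 4 → Bool) (h : 10 ≤ cnt M) : Sub (fulle 2 2) M := by
  rw [eta34 M] at h ⊢
  exact sub_of_chk inj33 inj34 (decB _ _ _ _ _ _ _ _ _ _ _ _ h)

lemma clC (M : Fin 3 → Fin 4 → Bool) (h : 11 ≤ cnt M) : Sub (full 3 3) M := by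
  rw [eta34 M] at h ⊢
  exact sub_of_chk inj33 inj34 (decC _ _ _ _ _ _ _ _ _ _ _ _ h)

lemma clD (M : Fin 3 → Fin 3 → Bool) (h : 8 ≤ cnt M) : Sub (fulle 2 2) M := by
  rw [eta33 M] at h ⊢
  exact sub_of_chk inj33 inj33 (decD _ _ _ _ _ _ _ _ _ h)

lemma clE (M : Fin 2 → Fin 5 → Bool) (h : 9 ≤ cnt M) : Sub (full 2 4) M := by
  rw [eta25 M] at h ⊢
  exact sub_of_chk inj22 inj45 (decE _ _ _ _ _ _ _ _ _ _ h)

end Pool.Agent.Work.MP_054302_co
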