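import Pool.Agent.Work.MP_054302_co.Classify

/-!
Dense algebraic host graphs.
-/

open Finset SimpleGraph

namespace Pool.Agent.Work.MP_054302_co

lemma card_le_degree {V ι : Type*} [Fintype V] [Fintype ι] (H : SimpleGraph V)
    [DecidableRel H.Adj] (v : V) (f : ι → V) (hf : Function.Injective f)
    (h : ∀ i, H.Adj v (f i)) : Fintype.card ι ≤ H.degree v := by
  rw [← card_neighborFinset_eq_degree, ← card_univ]
  exact card_le_card_of_injOn f (fun i _ => by simpa using h i) hf.injOn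

variable {F : Type*} [Field F]

/-! ### The four-type graph -/

/-- Bilinear coefficients. -/
def cA : Fin 4 → Fin 4 → ℤ := ![![0, 4, 4, 2], ![-4, 0, -4, -4], ![-4, 4, 0, 4], ![-2, 4, -4, 0]]

/-- Quadratic coefficients. -/
def cB : Fin 4 → Fin 4 → ℤ := ![![0, 1, -1, 0], ![-2, 0, 0, 2], ![2, 0, 0, -2], ![0, -1, 1, 0]]

lemma cA_anti : ∀ i k, cA k i = -cA i k := by decide

lemma cA_dvd : ∀ i k, i ≠ k → cA i k ∣ 4 := by decide

lemma cB_dvd : ∀ i j k, i ≠ j → i ≠ k → j ≠ k → cB k i - cB k j ∣ 4 := by decide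

lemma c_id : ∀ i j k l, i ≠ j → i ≠ k → j ≠ k → i ≠ l → j ≠ l → k ≠ l →
    (cB k i - cB k j) * (cA i l ^ 2 + 4 * (cB l i - cB l j) * cB i l) =
      (cB l i - cB l j) * (cA i k ^ 2 + 4 * (cB k i - cB k j) * cB i k) ∧
    (cB k i - cB k j) * (cA i l * cA j l) = (cB l i - cB l j) * (cA i k * cA j k) ∧
    (cB k i - cB k j) * (cA j l ^ 2 - 4 * (cB l i - cB l j) * cB j l) =
      (cB l i - cB l j) * (cA j k ^ 2 - 4 * (cB k i - cB k j) * cB j k) ∧
    ((cB k i - cB k j) * (cB l i - cB l j) = 2 * 1 ^ 2 ∨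
      (cB k i - cB k j) * (cB l i - cB l j) = -1 * 4 ^ 2 ∨
      (cB k i - cB k j) * (cB l i - cB l j) = -1 * 2 ^ 2) := by decide +kernel

lemma two_ne (h2 : ¬ IsSquare (2 : F)) : (2 : F) ≠ 0 := fun h => h2 (h ▸ IsSquare.zero)

lemma cast_ne (h2 : (2 : F) ≠ 0) {z : ℤ} (hz : z ∣ 4) : (z : F) ≠ 0 := by
  obtain ⟨w, hw⟩ := hz
  intro h
  have h1 : ((4 : ℤ) : F) = z * w := by rw [hw]; push_cast; rfl
  rw [h, zero_mul] at h1
  have h3 : (2 : F) * 2 = 0 := by rw [← h1]; norm_num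
  exact mul_ne_zero h2 h2 h3

/-- Adjacency of the point `x` of type `i` and the point `y` of type `k`. -/
def RA (i : Fin 4) (x : F × F) (k : Fin 4) (y : F × F) : Prop :=
  i ≠ k ∧ y.2 - cB k i * y.1 ^ 2 - (x.2 - cB i k * x.1 ^ 2) = cA i k * x.1 * y.1

lemma RA.symm {i k : Fin 4} {x y : F × F} (h : RA i x k y) : RA k y i x := by
  refine ⟨h.1.symm, ?_⟩
  rw [cA_anti i k]
  push_cast
  linear_combination -h.2

lemma RA.ext {i k : Fin 4} {x y y' : F × F} (h : RA i x k y) (h' : RA i x k y')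
    (h1 : y.1 = y'.1) : y = y' := by
  refine Prod.ext h1 ?_
  have h3 := h.2
  rw [h1] at h3
  linear_combination h3 - h'.2

lemma RA.same (h2 : (2 : F) ≠ 0) {i k : Fin 4} {x x' y y' : F × F} (hx : x ≠ x')
    (a1 : RA i x k y) (a2 : RA i x' k y) (a3 : RA i x k y') (a4 : RA i x' k y') : y = y' := by
  have hA : (cA i k : F) ≠ 0 := cast_ne h2 (cA_dvd i k a1.1)
  have h1 : x.1 ≠ x'.1 := fun h => hx (a1.symm.ext a2.symm h)
  refine a1.ext a3 ?_
  have h3 : (cA i k : F) * (x.1 - x'.1) * (y.1 - y'.1) = 0 := by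
    linear_combination a2.2 + a3.2 - a1.2 - a4.2
  exact sub_eq_zero.1 ((mul_eq_zero.1 h3).resolve_left (mul_ne_zero hA (sub_ne_zero.2 h1)))

lemma nonsq {r c c' m d T : F} (hr : ¬ IsSquare r) (hc : c ≠ 0) (hc' : c' ≠ 0) (hd : d ≠ 0)
    (h1 : c * c' = r * m ^ 2) (h : c * T ^ 2 = c' * (c * d) ^ 2) : False := by
  have hm : m ≠ 0 := by
    rintro rfl
    exact mul_ne_zero hc hc' (by rw [h1]; ring)
  refine hr ⟨T / (m * d), ?_⟩
  field_simp
  apply mul_left_cancel₀ hc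
  linear_combination -h - c * d ^ 2 * h1

lemma RA.mixed_aux (h2 : ¬ IsSquare (2 : F)) (hm : ¬ IsSquare (-1 : F)) {i j k l : Fin 4}
    (hij : i ≠ j) {x x' y y' z : F × F} (a1 : RA i x k y) (a2 : RA j x' k y) (a3 : RA i x k y')
    (a4 : RA j x' k y') (a5 : RA i x l z) (a6 : RA j x' l z) (hy : y ≠ y')
    (hz : (l, z) ≠ (k, y)) (hz' : (l, z) ≠ (k, y')) : False := by
  have h0 := two_ne h2
  have hc : ((cB k i - cB k j : ℤ) : F) ≠ 0 := cast_ne h0 (cB_dvd i j k hij a1.1 a2.1)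
  have hc' : ((cB l i - cB l j : ℤ) : F) ≠ 0 := cast_ne h0 (cB_dvd i j l hij a5.1 a6.1)
  push_cast at hc hc'
  have hd : y.1 - y'.1 ≠ 0 := sub_ne_zero.2 fun h => hy (a1.ext a3 h)
  have e1 : ((cB k i : F) - cB k j) * (y.1 + y'.1) + (cA i k * x.1 - cA j k * x'.1) = 0 := by
    apply mul_left_cancel₀ hd
    linear_combination a2.2 + a3.2 - a1.2 - a4.2
  by_cases hkl : k = l
  · subst hkl
    have hd1 : y.1 - z.1 ≠ 0 := sub_ne_zero.2 fun h => hz (by rw [a1.ext a5 h])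
    have hd2 : y'.1 - z.1 ≠ 0 := sub_ne_zero.2 fun h => hz' (by rw [a3.ext a5 h])
    have e2 : ((cB k i : F) - cB k j) * (y.1 + z.1) + (cA i k * x.1 - cA j k * x'.1) = 0 := by
      apply mul_left_cancel₀ hd1
      linear_combination a2.2 + a5.2 - a1.2 - a6.2
    exact mul_ne_zero hc hd2 (by linear_combination e1 - e2)
  · obtain ⟨i1, i2, i3, i4⟩ := c_id i j k l hij a1.1 a2.1 a5.1 a6.1 hkl
    have j1 := congrArg (Int.cast : ℤ → F) i1
    have j2 := congrArg (Int.cast : ℤ → F) i2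
    have j3 := congrArg (Int.cast : ℤ → F) i3
    push_cast at j1 j2 j3
    have d1 : ((cA i k : F) * x.1 - cA j k * x'.1) ^ 2 - 4 * ((cB k i : F) - cB k j) *
        (x.2 - x'.2 - cB i k * x.1 ^ 2 + cB j k * x'.1 ^ 2) =
        (((cB k i : F) - cB k j) * (y.1 - y'.1)) ^ 2 := by
      linear_combination 4 * ((cB k i : F) - cB k j) * (a1.2 - a2.2) +
        ((cA i k * x.1 - cA j k * x'.1) + ((cB k i : F) - cB k j) * (3 * y.1 - y'.1)) * e1
    have d2 : ((cA i l : F) * x.1 - cA j l * x'.1) ^ 2 - 4 * ((cB l i : F) - cB l j) *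
        (x.2 - x'.2 - cB i l * x.1 ^ 2 + cB j l * x'.1 ^ 2) =
        (2 * ((cB l i : F) - cB l j) * z.1 + (cA i l * x.1 - cA j l * x'.1)) ^ 2 := by
      linear_combination 4 * ((cB l i : F) - cB l j) * (a5.2 - a6.2)
    have key : ((cB k i : F) - cB k j) *
        (2 * ((cB l i : F) - cB l j) * z.1 + (cA i l * x.1 - cA j l * x'.1)) ^ 2 =
        ((cB l i : F) - cB l j) * (((cB k i : F) - cB k j) * (y.1 - y'.1)) ^ 2 := by
      rw [← d1, ← d2]
      linear_combination x.1 ^ 2 * j1 - 2 * x.1 * x'.1 * j2 + x'.1 ^ 2 * j3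
    rcases i4 with h | h | h
    all_goals have h' := congrArg (Int.cast : ℤ → F) h
    · exact nonsq (m := 1) h2 hc hc' hd (by push_cast at h'; linear_combination h') key
    · exact nonsq (m := 4) hm hc hc' hd (by push_cast at h'; linear_combination h') key
    · exact nonsq (m := 2) hm hc hc' hd (by push_cast at h'; linear_combination h') key

lemma pigeon : ∀ i j k₁ k₂ k₃ : Fin 4, i ≠ j → i ≠ k₁ → j ≠ k₁ → i ≠ k₂ → j ≠ k₂ → i ≠ k₃ →
    j ≠ k₃ → k₁ = k₂ ∨ k₁ = k₃ ∨ k₂ = k₃ := by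
  intro i j k₁ k₂ k₃
  simp only [ne_eq, Fin.ext_iff]
  omega

lemma RA.mixed (h2 : ¬ IsSquare (2 : F)) (hm : ¬ IsSquare (-1 : F)) {i j k₁ k₂ k₃ : Fin 4}
    (hij : i ≠ j) {x x' y₁ y₂ y₃ : F × F} (a1 : RA i x k₁ y₁) (a2 : RA j x' k₁ y₁)
    (a3 : RA i x k₂ y₂) (a4 : RA j x' k₂ y₂) (a5 : RA i x k₃ y₃) (a6 : RA j x' k₃ y₃)
    (h12 : (k₁, y₁) ≠ (k₂, y₂)) (h13 : (k₁, y₁) ≠ (k₃, y₃)) (h23 : (k₂, y₂) ≠ (k₃, y₃)) :
    False := by
  rcases pigeon i j k₁ k₂ k₃ hij a1.1 a2.1 a3.1 a4.1 a5.1 a6.1 with rfl | rfl | rfl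
  · exact RA.mixed_aux h2 hm hij a1 a2 a3 a4 a5 a6 (fun h => h12 (by rw [h])) h13.symm h23.symm
  · exact RA.mixed_aux h2 hm hij a1 a2 a5 a6 a3 a4 (fun h => h13 (by rw [h])) h12.symm h23
  · exact RA.mixed_aux h2 hm hij a3 a4 a5 a6 a1 a2 (fun h => h23 (by rw [h])) h12 h13

/-- The graph on the types picked by `ι`. -/
def hostA (F : Type*) [Field F] {m : ℕ} (ι : Fin m ↪ Fin 4) : SimpleGraph (Fin m × F × F) where
  Adj u v := RA (ι u.1) u.2 (ι v.1) v.2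
  symm := ⟨fun _ _ h => h.symm⟩
  loopless := ⟨fun _ h => h.1 rfl⟩

section

variable {m : ℕ} {ι : Fin m ↪ Fin 4} {u u' v v' w : Fin m × F × F}

lemma hostA_type (h2 : ¬ IsSquare (2 : F)) (hm : ¬ IsSquare (-1 : F))
    (a1 : (hostA F ι).Adj u v) (a2 : (hostA F ι).Adj u' v) (a3 : (hostA F ι).Adj u v')
    (a4 : (hostA F ι).Adj u' v') (a5 : (hostA F ι).Adj u w) (a6 : (hostA F ι).Adj u' w)
    (h12 : v ≠ v') (h13 : v ≠ w) (h23 : v' ≠ w) : u.1 = u'.1 := by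
  by_contra hne
  have h : ∀ {a b : Fin m × F × F}, a ≠ b → (ι a.1, a.2) ≠ (ι b.1, b.2) := fun hab h =>
    hab (Prod.ext (ι.injective (Prod.ext_iff.1 h).1) (Prod.ext_iff.1 h).2)
  exact RA.mixed h2 hm (ι.injective.ne hne) a1 a2 a3 a4 a5 a6 (h h12) (h h13) (h h23)

lemma hostA_same (h2 : ¬ IsSquare (2 : F)) (hu : u ≠ u') (hu1 : u.1 = u'.1) (hv1 : v.1 = v'.1)
    (a1 : (hostA F ι).Adj u v) (a2 : (hostA F ι).Adj u' v) (a3 : (hostA F ι).Adj u v')
    (a4 : (hostA F ι).Adj u' v') : v = v' := by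
  refine Prod.ext hv1 ?_
  have hx : u.2 ≠ u'.2 := fun h => hu (Prod.ext hu1 h)
  simp only [hostA] at a1 a2 a3 a4
  rw [← hu1] at a2 a4
  rw [← hv1] at a3 a4
  exact RA.same (two_ne h2) hx a1 a2 a3 a4

end

lemma hostA_k2 (h2 : ¬ IsSquare (2 : F)) (hm : ¬ IsSquare (-1 : F)) {m : ℕ}
    (ι : Fin (m + 3) ↪ Fin 4) : ¬ Has (hostA F ι) (full 2 (m + 3)) := by
  rintro ⟨s, t, hs, ht, -, h⟩
  have h1 : (s 0).1 = (s 1).1 := hostA_type h2 hm (h 0 ⟨0, by omega⟩ rfl) (h 1 _ rfl)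
    (h 0 ⟨1, by omega⟩ rfl) (h 1 _ rfl) (h 0 ⟨2, by omega⟩ rfl) (h 1 _ rfl)
    (ht.ne (by simp)) (ht.ne (by simp [Fin.ext_iff])) (ht.ne (by simp [Fin.ext_iff]))
  have h3 : Function.Injective fun j => (t j).1 := fun j j' hj =>
    ht (hostA_same h2 (hs.ne (by simp)) h1 hj (h 0 j rfl) (h 1 j rfl) (h 0 j' rfl) (h 1 j' rfl))
  obtain ⟨j, hj⟩ := Finite.surjective_of_injective h3 (s 0).1
  exact (h 0 j rfl).1 (congrArg ι hj.symm)

lemma hostA_k33e (h2 : ¬ IsSquare (2 : F)) (hm : ¬ IsSquare (-1 : F)) {m : ℕ}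
    (ι : Fin m ↪ Fin 4) : ¬ Has (hostA F ι) (fulle 2 2) := by
  rintro ⟨s, t, hs, ht, -, h⟩
  have h1 : (s 1).1 = (s 2).1 := hostA_type h2 hm (h 1 0 rfl) (h 2 0 rfl) (h 1 1 rfl) (h 2 1 rfl)
    (h 1 2 rfl) (h 2 2 rfl) (ht.ne (by decide)) (ht.ne (by decide)) (ht.ne (by decide))
  have h3 : (t 1).1 = (t 2).1 := hostA_type h2 hm (h 0 1 rfl).symm (h 0 2 rfl).symm
    (h 1 1 rfl).symm (h 1 2 rfl).symm (h 2 1 rfl).symm (h 2 2 rfl).symm
    (hs.ne (by decide)) (hs.ne (by decide)) (hs.ne (by decide))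
  exact ht.ne (by decide : (1 : Fin 3) ≠ 2) (hostA_same h2 (hs.ne (by decide)) h1 h3
    (h 1 1 rfl) (h 2 1 rfl) (h 1 2 rfl) (h 2 2 rfl))

lemma hostA_deg [Fintype F] {m : ℕ} (ι : Fin (m + 1) ↪ Fin 4) [DecidableRel (hostA F ι).Adj]
    (v : Fin (m + 1) × F × F) : m * Fintype.card F ≤ (hostA F ι).degree v := by
  have := card_le_degree (hostA F ι) v (fun p : Fin m × F => (v.1.succAbove p.1, p.2,
      cB (ι (v.1.succAbove p.1)) (ι v.1) * p.2 ^ 2 +
        (v.2.2 - cB (ι v.1) (ι (v.1.succAbove p.1)) * v.2.1 ^ 2) +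
        cA (ι v.1) (ι (v.1.succAbove p.1)) * v.2.1 * p.2))
    (fun p p' h => Prod.ext (Fin.succAbove_right_injective (congrArg Prod.fst h))
      (congrArg (fun z => z.2.1) h))
    (fun p => ⟨ι.injective.ne (Fin.ne_succAbove _ _), by ring⟩)
  simpa using this

/-! ### The doubled four-cycle-free graph -/

/-- The doubled polarity graph. -/
def hostB (F : Type*) [Field F] : SimpleGraph ((F × F) × Bool) where
  Adj u v := u.1.2 + v.1.2 = u.1.1 * v.1.1 ∧ u ≠ v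
  symm := ⟨fun _ _ h => ⟨by linear_combination h.1, h.2.symm⟩⟩
  loopless := ⟨fun _ h => h.2 rfl⟩

lemma hostB_c4 {x y z w : (F × F) × Bool} (a1 : (hostB F).Adj x y) (a2 : (hostB F).Adj z y)
    (a3 : (hostB F).Adj x w) (a4 : (hostB F).Adj z w) : x.1 = z.1 ∨ y.1 = w.1 := by
  by_cases h : x.1.1 = z.1.1
  · exact Or.inl (Prod.ext h (by linear_combination a1.1 - a2.1 + y.1.1 * h))
  · have h1 : y.1.1 = w.1.1 := by
      apply mul_left_cancel₀ (sub_ne_zero.2 h)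
      linear_combination a2.1 + a3.1 - a1.1 - a4.1
    exact Or.inr (Prod.ext h1 (by linear_combination a1.1 - a3.1 + x.1.1 * h1))

lemma fiber {α : Type*} {x y z : α × Bool} (h1 : x.1 = y.1) (h2 : x.1 = z.1) (n1 : x ≠ y)
    (n2 : x ≠ z) (n3 : y ≠ z) : False := by
  obtain ⟨x, a⟩ := x
  obtain ⟨y, b⟩ := y
  obtain ⟨z, c⟩ := z
  simp only at h1 h2
  subst h1 h2
  cases a <;> cases b <;> cases c <;> simp_all

lemma hostB_q7 : ¬ Has (hostB F) q7 := by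
  rintro ⟨s, t, hs, ht, -, h⟩
  have c1 := hostB_c4 (h 0 0 rfl) (h 1 0 rfl) (h 0 1 rfl) (h 1 1 rfl)
  have c2 := hostB_c4 (h 0 0 rfl) (h 2 0 rfl) (h 0 2 rfl) (h 2 2 rfl)
  have c3 := hostB_c4 (h 1 0 rfl) (h 2 0 rfl) (h 1 3 rfl) (h 2 3 rfl)
  have hs' : (s 0).1 = (s 1).1 → (s 0).1 = (s 2).1 → False := fun h1 h2 =>
    fiber h1 h2 (hs.ne (by decide)) (hs.ne (by decide)) (hs.ne (by decide))
  have ht' : ∀ i j : Fin 4, 0 ≠ i → 0 ≠ j → i ≠ j → (t 0).1 = (t i).1 → (t 0).1 = (t j).1 →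
      False := fun i j n1 n2 n3 h1 h2 => fiber h1 h2 (ht.ne n1) (ht.ne n2) (ht.ne n3)
  rcases c1 with c1 | c1 <;> rcases c2 with c2 | c2 <;> rcases c3 with c3 | c3
  · exact hs' c1 c2
  · exact hs' c1 c2
  · exact hs' c1 (c1.trans c3)
  · exact ht' 2 3 (by decide) (by decide) (by decide) c2 c3
  · exact hs' (c2.trans c3.symm) c2
  · exact ht' 1 3 (by decide) (by decide) (by decide) c1 c3
  · exact ht' 1 2 (by decide) (by decide) (by decide) c1 c2
  · exact ht' 1 2 (by decide) (by decide) (by decide) c1 c2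

lemma hostB_deg [Fintype F] [DecidableRel (hostB F).Adj] (v : (F × F) × Bool) :
    2 * Fintype.card F - 1 ≤ (hostB F).degree v := by
  classical
  have := card_le_degree (hostB F) v
    (fun p : {p : F × Bool // p ≠ (v.1.1, v.2)} => ((p.1.1, v.1.1 * p.1.1 - v.1.2), p.1.2))
    (fun p p' h => Subtype.ext (Prod.ext (congrArg (fun z => z.1.1) h) (Prod.ext_iff.1 h).2))
    (fun p => ⟨by ring, fun h => p.2 (Prod.ext (congrArg (fun z => z.1.1) h).symm
      (congrArg Prod.snd h).symm)⟩)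
  simpa [mul_comm] using this

/-! ### The sphere graph -/

lemma par {s1 s2 s3 w1 w2 w3 : F} (h12 : s1 * w2 = s2 * w1) (h13 : s1 * w3 = s3 * w1)
    (h23 : s2 * w3 = s3 * w2) (hw : ¬ (w1 = 0 ∧ w2 = 0 ∧ w3 = 0)) :
    ∃ c, s1 = c * w1 ∧ s2 = c * w2 ∧ s3 = c * w3 := by
  by_cases h1 : w1 = 0
  · by_cases h2 : w2 = 0
    · have h3 : w3 ≠ 0 := fun h => hw ⟨h1, h2, h⟩
      refine ⟨s3 / w3, ?_, ?_, ?_⟩ <;> field_simp
      · linear_combination h13
      · linear_combination h23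
    · refine ⟨s2 / w2, ?_, ?_, ?_⟩ <;> field_simp
      · linear_combination h12
      · linear_combination -h23
  · refine ⟨s1 / w1, ?_, ?_, ?_⟩ <;> field_simp
    · linear_combination -h12
    · linear_combination -h13

lemma line (hm : ¬ IsSquare (-1 : F)) {p1 p2 p3 d1 d2 d3 l : F}
    (hd : ¬ (d1 = 0 ∧ d2 = 0 ∧ d3 = 0)) (h0 : l ≠ 0) (h1 : l ≠ 1)
    (e0 : p1 * p2 + p3 ^ 2 = -1) (e1 : (p1 + d1) * (p2 + d2) + (p3 + d3) ^ 2 = -1)
    (e2 : (p1 + l * d1) * (p2 + l * d2) + (p3 + l * d3) ^ 2 = -1) : False := by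
  have hq : d1 * d2 + d3 ^ 2 = 0 := by
    apply mul_left_cancel₀ (mul_ne_zero h0 (sub_ne_zero.2 h1))
    linear_combination e2 - l * e1 + (l - 1) * e0
  have hb : p1 * d2 + p2 * d1 + 2 * p3 * d3 = 0 := by linear_combination e1 - e0 - hq
  by_cases h : d1 = 0
  · subst h
    have h3 : d3 = 0 := pow_eq_zero_iff (n := 2) (by norm_num) |>.1 (by linear_combination hq)
    subst h3
    have h2 : d2 ≠ 0 := fun h => hd ⟨rfl, h, rfl⟩
    have h4 : p1 = 0 := by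
      apply mul_right_cancel₀ h2
      linear_combination hb
    exact hm ⟨p3, by rw [h4] at e0; linear_combination -e0⟩
  · refine hm ⟨p1 * d3 / d1 - p3, ?_⟩
    field_simp
    linear_combination (-d1 ^ 2) * e0 + p1 * d1 * hb - p1 ^ 2 * hq

/-- The sphere graph of the form `x y + z ^ 2`. -/
def hostC (F : Type*) [Field F] : SimpleGraph (F × F × F) where
  Adj u v := (u.1 - v.1) * (u.2.1 - v.2.1) + (u.2.2 - v.2.2) ^ 2 = -1
  symm := ⟨fun _ _ h => by linear_combination h⟩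
  loopless := ⟨fun _ h => one_ne_zero (α := F) (by linear_combination h)⟩

lemma sub_ne {x y : F × F × F} (h : x ≠ y) :
    ¬ (x.1 - y.1 = 0 ∧ x.2.1 - y.2.1 = 0 ∧ x.2.2 - y.2.2 = 0) := fun h' =>
  h (Prod.ext (sub_eq_zero.1 h'.1) (Prod.ext (sub_eq_zero.1 h'.2.1) (sub_eq_zero.1 h'.2.2)))

lemma hostC_line (hm : ¬ IsSquare (-1 : F)) {x y z b : F × F × F} (n1 : y ≠ x) (n2 : z ≠ x)
    (n3 : z ≠ y) (a1 : (hostC F).Adj x b) (a2 : (hostC F).Adj y b) (a3 : (hostC F).Adj z b)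
    {l : F} (h1 : z.1 - x.1 = l * (y.1 - x.1)) (h2 : z.2.1 - x.2.1 = l * (y.2.1 - x.2.1))
    (h3 : z.2.2 - x.2.2 = l * (y.2.2 - x.2.2)) : False := by
  simp only [hostC] at a1 a2 a3
  refine line hm (sub_ne n1) (l := l) ?_ ?_ a1 (by linear_combination a2) ?_
  · rintro rfl
    exact sub_ne n2 ⟨by linear_combination h1, by linear_combination h2, by linear_combination h3⟩
  · rintro rfl
    exact sub_ne n3 ⟨by linear_combination h1, by linear_combination h2, by linear_combination h3⟩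
  · rw [← h1, ← h2, ← h3]
    linear_combination a3

lemma hostC_k33 (h2 : (2 : F) ≠ 0) (hm : ¬ IsSquare (-1 : F)) : ¬ Has (hostC F) (full 3 3) := by
  rintro ⟨s, t, hs, ht, -, h⟩
  have hb : ∀ i j, ((s i).1 - (s 0).1) * ((t j).2.1 - (t 0).2.1) +
      ((s i).2.1 - (s 0).2.1) * ((t j).1 - (t 0).1) +
      ((s i).2.2 - (s 0).2.2) * (2 * ((t j).2.2 - (t 0).2.2)) = 0 := fun i j => by
    have a1 := h i j rfl
    have a2 := h i 0 rfl
    have a3 := h 0 j rfl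
    have a4 := h 0 0 rfl
    simp only [hostC] at a1 a2 a3 a4
    linear_combination a2 + a3 - a1 - a4
  set u1 := (s 1).1 - (s 0).1 with hu1
  set u2 := (s 1).2.1 - (s 0).2.1 with hu2
  set u3 := (s 1).2.2 - (s 0).2.2 with hu3
  set v1 := (s 2).1 - (s 0).1 with hv1
  set v2 := (s 2).2.1 - (s 0).2.1 with hv2
  set v3 := (s 2).2.2 - (s 0).2.2 with hv3
  by_cases hw : u2 * v3 - u3 * v2 = 0 ∧ u3 * v1 - u1 * v3 = 0 ∧ u1 * v2 - u2 * v1 = 0
  · obtain ⟨l, l1, l2, l3⟩ := par (s1 := v1) (s2 := v2) (s3 := v3) (w1 := u1) (w2 := u2)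
      (w3 := u3) (by linear_combination -hw.2.2) (by linear_combination hw.2.1)
      (by linear_combination -hw.1) (sub_ne (hs.ne (by decide)))
    exact hostC_line hm (hs.ne (by decide)) (hs.ne (by decide)) (hs.ne (by decide)) (h 0 0 rfl)
      (h 1 0 rfl) (h 2 0 rfl) l1 l2 l3
  · have hp : ∀ j, ∃ c, (t j).2.1 - (t 0).2.1 = c * (u2 * v3 - u3 * v2) ∧
        (t j).1 - (t 0).1 = c * (u3 * v1 - u1 * v3) ∧
        2 * ((t j).2.2 - (t 0).2.2) = c * (u1 * v2 - u2 * v1) := fun j =>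
      par (by linear_combination u3 * hb 2 j - v3 * hb 1 j)
        (by linear_combination v2 * hb 1 j - u2 * hb 2 j)
        (by linear_combination u1 * hb 2 j - v1 * hb 1 j) hw
    obtain ⟨c, c1, c2, c3⟩ := hp 1
    obtain ⟨d, d1, d2, d3⟩ := hp 2
    have hc : c ≠ 0 := by
      rintro rfl
      refine sub_ne (ht.ne (by decide : (1 : Fin 3) ≠ 0)) ⟨by linear_combination c2,
        by linear_combination c1, mul_left_cancel₀ h2 (by linear_combination c3)⟩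
    refine hostC_line hm (ht.ne (by decide)) (ht.ne (by decide)) (ht.ne (by decide))
      (h 0 0 rfl).symm (h 0 1 rfl).symm (h 0 2 rfl).symm (l := d / c) ?_ ?_ ?_
    · rw [c2, d2]; field_simp
    · rw [c1, d1]; field_simp
    · apply mul_left_cancel₀ h2
      rw [mul_left_comm, c3, d3]; field_simp

lemma hostC_deg [Fintype F] [DecidableRel (hostC F).Adj] (v : F × F × F) :
    (Fintype.card F - 1) * Fintype.card F ≤ (hostC F).degree v := by
  classical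
  have := card_le_degree (hostC F) v
    (fun p : Fˣ × F => (v.1 - p.1, v.2.1 - (-1 - p.2 ^ 2) / p.1, v.2.2 - p.2))
    (fun p p' h => Prod.ext (Units.ext (sub_right_injective (congrArg Prod.fst h)))
      (sub_right_injective (congrArg (fun z => z.2.2) h)))
    (fun p => by
      have := p.1.ne_zero
      simp only [hostC]
      field_simp
      ring)
  simpa [Fintype.card_units] using this

end Pool.Agent.Work.MP_054302_co
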