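import Pool.Agent.Work.MP_054302_co.Upper
import Pool.Agent.Work.MP_054302_co.Hosts
import Pool.Agent.Lib.ANT.PNT

-- merged part: Pool.Agent.Work.MP_054302_co.Main
section
/-!
The comparisons between extremal numbers for large `n`.
-/

open Finset SimpleGraph Filter Topology

namespace Pool.Agent.Work.MP_054302_co

lemma exists_prime : ∀ᶠ x : ℕ in atTop, ∃ q : ℕ, q.Prime ∧ q % 8 = 3 ∧ q ≤ x ∧ 99 * x < 100 * q := by
  have h0 := Pool.Agent.Lib.ANT.tendsto_theta_AP_div (q := 8) (a := 3) (by norm_num) (by norm_num)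
  have ht : ((Nat.totient 8 : ℕ) : ℝ) = 4 := by
    rw [show Nat.totient 8 = 4 by decide]; norm_num
  rw [ht] at h0
  have h1 := h0.comp tendsto_natCast_atTop_atTop
  have h2 := (h0.comp (tendsto_natCast_atTop_atTop.atTop_mul_const
    (by norm_num : (0 : ℝ) < 99 / 100))).mul_const (99 / 100)
  have h3 := (h1.sub h2).eventually (lt_mem_nhds (a := 0) (by norm_num))
  filter_upwards [h3, eventually_gt_atTop 0] with n hn hn0
  have hn' : (0 : ℝ) < n := by exact_mod_cast hn0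
  simp only [Function.comp, Nat.floor_natCast] at hn
  by_contra hc
  push Not at hc
  have h6 : (Icc 1 n).filter (fun p => p.Prime ∧ p ≡ 3 [MOD 8]) =
      (Icc 1 ⌊(n : ℝ) * (99 / 100)⌋₊).filter (fun p => p.Prime ∧ p ≡ 3 [MOD 8]) := by
    ext p
    simp only [mem_filter, mem_Icc, Nat.le_floor_iff (by positivity : (0 : ℝ) ≤ n * (99 / 100))]
    constructor
    · rintro ⟨h1, h2, h3⟩
      have h4 : ((100 * p : ℕ) : ℝ) ≤ ((99 * n : ℕ) : ℝ) := by exact_mod_cast hc p h2 h3 h1.2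
      push_cast at h4
      exact ⟨⟨h1.1, by linarith⟩, h2, h3⟩
    · rintro ⟨h1, h2⟩
      refine ⟨⟨h1.1, ?_⟩, h2⟩
      have : (p : ℝ) ≤ n := by linarith [h1.2]
      exact_mod_cast this
  rw [← h6] at hn
  have h7 : ∀ u : ℝ, u / n - u / (n * (99 / 100)) * (99 / 100) = 0 := by
    intro u; field_simp; ring
  rw [h7] at hn
  exact lt_irrefl _ hn

lemma exists_size (m d : ℕ) (hm : 0 < m) (hd : 0 < d) : ∀ᶠ n : ℕ in atTop, ∃ q : ℕ, q.Prime ∧
    q % 8 = 3 ∧ 300 ≤ q ∧ m * q ^ d ≤ n ∧ (n : ℝ) ≤ m * (203 / 200 * q) ^ d := by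
  obtain ⟨X, hX⟩ := eventually_atTop.1 (exists_prime.and (eventually_ge_atTop 400))
  filter_upwards [eventually_ge_atTop (m * X ^ d)] with n hn
  have hex : ∃ y, n < m * y ^ d := ⟨n + 1, by
    have h1 : n + 1 ≤ (n + 1) ^ d := Nat.le_self_pow hd.ne' _
    nlinarith⟩
  have h1 := Nat.find_spec hex
  have h2 : X < Nat.find hex := by
    by_contra h
    have := Nat.mul_le_mul_left m (Nat.pow_le_pow_left (not_lt.1 h) d)
    omega
  have h3 := Nat.find_min hex (m := Nat.find hex - 1) (by omega)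
  obtain ⟨⟨q, q1, q2, q3, q4⟩, h4⟩ := hX (Nat.find hex - 1) (by omega)
  refine ⟨q, q1, q2, by omega,
    (Nat.mul_le_mul_left m (Nat.pow_le_pow_left q3 d)).trans (not_lt.1 h3), ?_⟩
  have h5 : ((200 * Nat.find hex : ℕ) : ℝ) ≤ ((203 * q : ℕ) : ℝ) := by
    exact_mod_cast (by omega : 200 * Nat.find hex ≤ 203 * q)
  push_cast at h5
  have h6 : (n : ℝ) ≤ m * (Nat.find hex : ℝ) ^ d := by exact_mod_cast h1.le
  refine h6.trans ?_
  gcongr
  linarith

lemma lt_of_quad {D n A B : ℕ} {N T : ℝ} (hD : D ^ 2 ≤ n * (A * n ^ 2 + B * D))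
    (hn : (n : ℝ) ≤ N) (hT : 0 < T) (h : A * N ^ 3 + B * N * T < T ^ 2) : (D : ℝ) < T := by
  have hD' : (D : ℝ) ^ 2 ≤ n * (A * n ^ 2 + B * D) := by exact_mod_cast hD
  have hN : 0 ≤ N := le_trans (Nat.cast_nonneg n) hn
  have h1 : (n : ℝ) * (A * n ^ 2 + B * D) ≤ N * (A * N ^ 2 + B * D) := by gcongr
  by_contra hc
  have h2 : 0 ≤ (A : ℝ) * N ^ 3 := by positivity
  have h3 : B * N < T := by
    by_contra h3
    nlinarith
  nlinarith [mul_nonneg (sub_nonneg.2 (not_lt.1 hc)) (by linarith : 0 ≤ D + T - B * N)]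

section

variable {q n : ℕ}

lemma nsq_two (hq : q.Prime) (h : q % 8 = 3) : ¬ IsSquare (2 : ZMod q) := by
  have := Fact.mk hq
  rw [ZMod.exists_sq_eq_two_iff (by rintro rfl; omega)]
  omega

lemma nsq_neg (hq : q.Prime) (h : q % 8 = 3) : ¬ IsSquare (-1 : ZMod q) := by
  have := Fact.mk hq
  rw [ZMod.exists_sq_eq_neg_one_iff]
  omega

lemma lowA (hq : q.Prime) (h : q % 8 = 3) (hn : 4 * q ^ 2 ≤ n) :
    12 * q ^ 3 ≤ 2 * ex n (full 2 4) ∧ 12 * q ^ 3 ≤ 2 * ex n (fulle 2 2) := by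
  classical
  have := Fact.mk hq
  have hc : Fintype.card (Fin 4 × ZMod q × ZMod q) = 4 * q ^ 2 := by simp [sq]
  have h1 := host_deg (n := n) (by decide) (by decide) _
    (hostA_k2 (nsq_two hq h) (nsq_neg hq h) (m := 1) (Function.Embedding.refl _)) (hc ▸ hn)
    (hostA_deg (m := 3) _)
  have h2 := host_deg (n := n) (by decide) (by decide) _
    (hostA_k33e (nsq_two hq h) (nsq_neg hq h) (Function.Embedding.refl _)) (hc ▸ hn)
    (hostA_deg (m := 3) _)
  rw [hc, ZMod.card] at h1 h2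
  exact ⟨le_of_eq_of_le (by ring) h1, le_of_eq_of_le (by ring) h2⟩

lemma lowA' (hq : q.Prime) (h : q % 8 = 3) (hn : 3 * q ^ 2 ≤ n) :
    6 * q ^ 3 ≤ 2 * ex n (full 2 3) := by
  classical
  have := Fact.mk hq
  have hc : Fintype.card (Fin 3 × ZMod q × ZMod q) = 3 * q ^ 2 := by simp [sq]
  have h1 := host_deg (n := n) (by decide) (by decide) _
    (hostA_k2 (nsq_two hq h) (nsq_neg hq h) (m := 0) Fin.castSuccEmb) (hc ▸ hn)
    (hostA_deg (m := 2) _)
  rw [hc, ZMod.card] at h1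
  exact le_of_eq_of_le (by ring) h1

lemma lowB (hq : q.Prime) (hn : 2 * q ^ 2 ≤ n) : 2 * q ^ 2 * (2 * q - 1) ≤ 2 * ex n q7 := by
  classical
  have := Fact.mk hq
  have hc : Fintype.card ((ZMod q × ZMod q) × Bool) = 2 * q ^ 2 := by simp [sq, mul_comm]
  have h1 := host_deg (n := n) (by decide) (by decide) _ (hostB_q7 (F := ZMod q)) (hc ▸ hn)
    hostB_deg
  rwa [hc, ZMod.card] at h1

lemma lowC (hq : q.Prime) (h : q % 8 = 3) (hn : 1 * q ^ 3 ≤ n) :
    q ^ 3 * ((q - 1) * q) ≤ 2 * ex n (full 3 3) := by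
  classical
  have := Fact.mk hq
  have hc : Fintype.card (ZMod q × ZMod q × ZMod q) = q ^ 3 := by simp; ring
  have h1 := host_deg (n := n) (by decide) (by decide) _
    (hostC_k33 (two_ne (nsq_two hq h)) (nsq_neg hq h)) (by omega) hostC_deg
  rwa [hc, ZMod.card] at h1

end

lemma cmp_g2 : ∀ᶠ n : ℕ in atTop, ex n g2 < ex n (full 2 4) ∧ ex n g2 < ex n (fulle 2 2) := by
  filter_upwards [exists_size 4 2 (by norm_num) (by norm_num)] with n ⟨q, q1, q2, q3, q4, q5⟩
  have hq : (300 : ℝ) ≤ q := by exact_mod_cast q3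
  have h1 := lt_of_quad (up_g2 n) q5 (T := 12 * q ^ 3) (by positivity) (by
    push_cast
    nlinarith [mul_nonneg (sub_nonneg.2 hq) (by positivity : (0 : ℝ) ≤ q ^ 5),
      (by positivity : (0 : ℝ) < q ^ 5)])
  have h2 : 2 * ex n g2 < 12 * q ^ 3 := by exact_mod_cast h1
  have h3 := lowA q1 q2 q4
  omega

lemma cmp_f8a : ∀ᶠ n : ℕ in atTop, ex n f8 < ex n (full 2 3) := by
  filter_upwards [exists_size 3 2 (by norm_num) (by norm_num)] with n ⟨q, q1, q2, q3, q4, q5⟩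
  have hq : (300 : ℝ) ≤ q := by exact_mod_cast q3
  obtain ⟨e, he, hu⟩ := up_f8 n
  have h1 := lt_of_quad hu q5 (T := 59 / 10 * q ^ 3) (by positivity) (by
    push_cast
    nlinarith [mul_nonneg (sub_nonneg.2 hq) (by positivity : (0 : ℝ) ≤ q ^ 5),
      (by positivity : (0 : ℝ) < q ^ 5)])
  have h2 : ((2 * e + 6 * n : ℕ) : ℝ) < ((6 * q ^ 3 : ℕ) : ℝ) := by
    push_cast at h1 q5 ⊢
    nlinarith [mul_nonneg (sub_nonneg.2 hq) (by positivity : (0 : ℝ) ≤ q ^ 2)]
  have h3 := lowA' q1 q2 q4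
  have h4 := Nat.cast_lt.1 h2
  omega

lemma cmp_f8b : ∀ᶠ n : ℕ in atTop, ex n f8 < ex n q7 := by
  filter_upwards [exists_size 2 2 (by norm_num) (by norm_num)] with n ⟨q, q1, _, q3, q4, q5⟩
  have hq : (300 : ℝ) ≤ q := by exact_mod_cast q3
  obtain ⟨e, he, hu⟩ := up_f8 n
  have h1 := lt_of_quad hu q5 (T := 7 / 2 * q ^ 3) (by positivity) (by
    push_cast
    nlinarith [mul_nonneg (sub_nonneg.2 hq) (by positivity : (0 : ℝ) ≤ q ^ 5),
      (by positivity : (0 : ℝ) < q ^ 5)])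
  have h2 : ((2 * e + 6 * n : ℕ) : ℝ) < ((2 * q ^ 2 * (2 * q - 1) : ℕ) : ℝ) := by
    rw [Nat.cast_mul (2 * q ^ 2), Nat.cast_sub (by omega)]
    push_cast at h1 q5 ⊢
    nlinarith [mul_nonneg (sub_nonneg.2 hq) (by positivity : (0 : ℝ) ≤ q ^ 2)]
  have h3 := lowB q1 q4
  have h4 := Nat.cast_lt.1 h2
  omega

lemma cmp_k25 : ∀ᶠ n : ℕ in atTop, ex n (full 2 5) < ex n (full 3 3) := by
  filter_upwards [exists_size 1 3 (by norm_num) (by norm_num)] with n ⟨q, q1, q2, q3, q4, q5⟩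
  have hq : (300 : ℝ) ≤ q := by exact_mod_cast q3
  have h1 := lt_of_quad (up_k25 n) q5 (T := 1 / 2 * q ^ 5) (by positivity) (by
    push_cast
    nlinarith [mul_nonneg (sub_nonneg.2 hq) (by positivity : (0 : ℝ) ≤ q ^ 9),
      mul_nonneg (sub_nonneg.2 hq) (by positivity : (0 : ℝ) ≤ q ^ 8),
      (by positivity : (0 : ℝ) < q ^ 8)])
  have h2 : ((2 * ex n (full 2 5) : ℕ) : ℝ) < ((q ^ 3 * ((q - 1) * q) : ℕ) : ℝ) := by
    rw [Nat.cast_mul (q ^ 3), Nat.cast_mul (q - 1), Nat.cast_sub (by omega)]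
    push_cast at h1 ⊢
    nlinarith [mul_nonneg (sub_nonneg.2 hq) (by positivity : (0 : ℝ) ≤ q ^ 4),
      (by positivity : (0 : ℝ) < q ^ 4)]
  have h3 := lowC q1 q2 q4
  have h4 := Nat.cast_lt.1 h2
  omega

lemma cmp_nonbip (a b : ℕ) : ∀ᶠ n : ℕ in atTop, ∀ {k : ℕ} (G : SimpleGraph (Fin k)),
    ¬ G.Colorable 2 → ex n (full (a + 1) (b + 1)) < extremalNumber n G := by
  filter_upwards [eventually_ge_atTop (8 * (a + 1)), eventually_gt_atTop (8 * (8 ^ (a + 1) * b))]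
    with n h1 h2 k G hG
  have h3 := kst a b n h1 h2
  have h4 := nonbip hG n
  omega

end Pool.Agent.Work.MP_054302_co
end

-- merged part: Pool.Agent.Work.MP_054302_co.Steps
section
/-!
The strict steps of the minimum extremal number.
-/

open Finset SimpleGraph Filter Nd4bc9c34

namespace Pool.Agent.Work.MP_054302_co

variable {a b : ℕ}

lemma card_bipG (P : Fin a → Fin b → Bool) : #(bipG P).edgeFinset = cnt P := by
  classical
  have hne : ∀ (i : Fin a) (j : Fin b), Fin.castAdd b i ≠ Fin.natAdd a j := by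
    intro i j h
    have := congrArg Fin.val h
    simp only [Fin.val_castAdd, Fin.val_natAdd] at this
    omega
  rw [cnt_eq]
  symm
  refine card_bij (fun p _ => s(Fin.castAdd b p.1, Fin.natAdd a p.2)) ?_ ?_ ?_
  · intro p hp
    rw [mem_edgeFinset, mem_edgeSet, bipG, fromRel_adj]
    exact ⟨hne _ _, Or.inl ⟨p.1, p.2, (mem_filter.1 hp).2, rfl, rfl⟩⟩
  · intro p _ p' _ h
    rcases Sym2.eq_iff.1 h with ⟨h1, h2⟩ | ⟨h1, -⟩
    · exact Prod.ext (Fin.castAdd_injective _ _ h1) (Fin.natAdd_injective _ _ h2)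
    · exact absurd h1 (hne _ _)
  · intro e he
    induction e using Sym2.ind with
    | h u v =>
      rw [mem_edgeFinset, mem_edgeSet, bipG, fromRel_adj] at he
      rcases he.2 with ⟨i, j, hij, rfl, rfl⟩ | ⟨i, j, hij, rfl, rfl⟩
      · exact ⟨(i, j), by simpa using hij, rfl⟩
      · exact ⟨(i, j), by simpa using hij, Sym2.eq_swap⟩

lemma cnt_fulle (a b : ℕ) : cnt (fulle a b) = (a + 1) * (b + 1) - 1 := by
  rw [cnt_eq]
  have : (univ.filter fun p : Fin (a + 1) × Fin (b + 1) => fulle a b p.1 p.2 = true) =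
      univ.erase (0, 0) := by
    ext p
    simp [fulle, Prod.ext_iff, not_and_or, -not_and]
  rw [this, card_erase_of_mem (mem_univ _)]
  simp

lemma sub_of_le {P M : Fin a → Fin b → Bool} (h : ∀ i j, P i j = true → M i j = true) : Sub P M :=
  ⟨id, id, Function.injective_id, Function.injective_id, h⟩

/-- The last step, for every number of vertices. -/
lemma top_step {k : ℕ} (hk : 3 ≤ k) : ∀ᶠ n : ℕ in atTop,
    minExtremalNumber n k (k ^ 2 / 4 - 1) < minExtremalNumber n k (k ^ 2 / 4) := by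
  obtain ⟨a, b, hab, h1, h2⟩ : ∃ a b, a + 1 + (b + 1) = k ∧ a ≤ b ∧ b ≤ a + 1 :=
    ⟨k / 2 - 1, k - k / 2 - 1, by omega, by omega, by omega⟩
  have hk2 : k ^ 2 / 4 = (a + 1) * (b + 1) := by
    rcases (by omega : b = a ∨ b = a + 1) with rfl | rfl
    · rw [← hab, show (b + 1 + (b + 1)) ^ 2 = 4 * ((b + 1) * (b + 1)) by ring]; omega
    · rw [← hab, show (a + 1 + (a + 1 + 1)) ^ 2 = 4 * ((a + 1) * (a + 1 + 1)) + 1 by ring]; omega
  filter_upwards [cmp_nonbip a b, eventually_ge_atTop (a + b + 2)] with n hn hn2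
  have h3 := fulle_lt a b n (by omega) hn2
  refine step (fulle a b) hab (by rw [card_bipG, cnt_fulle, hk2]) fun G hG => h3.trans_le ?_
  by_cases hc : G.Colorable 2
  · obtain ⟨c, d, hcd, h4, M, hM, h5⟩ := pattern G hc
    have h6 := cnt_le M
    rw [hG, hk2] at h5
    obtain rfl : c = a + 1 := by
      by_contra h7
      obtain ⟨r, hr⟩ : ∃ r, a = c + r := ⟨a - c, by omega⟩
      obtain rfl : d = b + 2 + r := by omega
      subst hr
      nlinarith
    obtain rfl : d = b + 1 := by omega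
    exact (hM.sub (sub_full M h5)).ex_le n
  · exact (hn G hc).le

lemma shape {k l : ℕ} {G : SimpleGraph (Fin k)} (hG : G.edgeSet.ncard = l) (hc : G.Colorable 2) :
    ∃ a b, a + b = k ∧ a ≤ b ∧ l ≤ a * b ∧ ∃ M : Fin a → Fin b → Bool, Has G M ∧ l ≤ cnt M := by
  obtain ⟨c, d, hcd, h4, M, hM, h5⟩ := pattern G hc
  exact ⟨c, d, hcd, h4, (hG ▸ h5).trans (cnt_le M), M, hM, hG ▸ h5⟩

lemma shape7 {l : ℕ} (hl : 9 ≤ l) {G : SimpleGraph (Fin 7)} (hG : G.edgeSet.ncard = l)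
    (hc : G.Colorable 2) : (l ≤ 10 ∧ ∃ M : Fin 2 → Fin 5 → Bool, Has G M ∧ l ≤ cnt M) ∨
      ∃ M : Fin 3 → Fin 4 → Bool, Has G M ∧ l ≤ cnt M := by
  obtain ⟨c, d, hcd, h4, h5, h6⟩ := shape hG hc
  obtain rfl : d = 7 - c := by omega
  have h7 : c ≤ 3 := by omega
  interval_cases c
  · omega
  · omega
  · exact Or.inl ⟨h5, h6⟩
  · exact Or.inr h6

lemma sub34 (P : Fin 3 → Fin 4 → Bool) : Sub P (full 3 4) := sub_of_le fun _ _ _ => rfl

lemma sub33 : Sub (full 3 3) (full 3 4) :=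
  ⟨id, Fin.castSucc, Function.injective_id, Fin.castSucc_injective _, fun _ _ _ => rfl⟩

lemma step6 : ∀ᶠ n : ℕ in atTop, minExtremalNumber n 6 7 < minExtremalNumber n 6 8 := by
  filter_upwards [cmp_nonbip 2 3, cmp_g2] with n hn h1
  have h0 : Sub (fulle 1 3) g2 := ⟨![1, 2], ![1, 0, 2, 3], by decide, by decide, by decide⟩
  refine step (fulle 1 3) rfl (by rw [card_bipG, cnt_fulle]) fun G hG => (h0.ex_le n).trans_lt ?_
  by_cases hc : G.Colorable 2
  · obtain ⟨c, d, hcd, h4, h5, M, hM, h6⟩ := shape hG hc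
    obtain rfl : d = 6 - c := by omega
    have h7 : c ≤ 3 := by omega
    interval_cases c
    · omega
    · omega
    · exact h1.1.trans_le ((hM.sub (sub_full M h6)).ex_le n)
    · exact h1.2.trans_le ((hM.sub (clD M h6)).ex_le n)
  · exact ((sub34 g2).ex_le n).trans_lt (hn G hc)

lemma step7a : ∀ᶠ n : ℕ in atTop, minExtremalNumber n 7 8 < minExtremalNumber n 7 9 := by
  filter_upwards [cmp_nonbip 2 3, cmp_f8a, cmp_f8b] with n hn h1 h2
  refine step f8 rfl (by rw [card_bipG]; decide) fun G hG => ?_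
  by_cases hc : G.Colorable 2
  · rcases shape7 le_rfl hG hc with ⟨-, M, hM, h⟩ | ⟨M, hM, h⟩
    · have h0 : Sub (full 2 3) (full 2 4) :=
        ⟨id, Fin.castSucc, Function.injective_id, Fin.castSucc_injective _, fun _ _ _ => rfl⟩
      exact h1.trans_le (((hM.sub (clE M h)).sub h0).ex_le n)
    · rcases clA M h with h | h | h
      · exact h1.trans_le ((hM.sub h).ex_le n)
      · exact h1.trans_le ((hM.sub h).tr.ex_le n)
      · exact h2.trans_le ((hM.sub h).ex_le n)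
  · exact ((sub34 f8).ex_le n).trans_lt (hn G hc)

lemma step7b : ∀ᶠ n : ℕ in atTop, minExtremalNumber n 7 9 < minExtremalNumber n 7 10 := by
  filter_upwards [cmp_nonbip 2 3, cmp_g2] with n hn h1
  refine step g2 rfl (by rw [card_bipG]; decide) fun G hG => ?_
  by_cases hc : G.Colorable 2
  · rcases shape7 (by norm_num) hG hc with ⟨-, M, hM, h⟩ | ⟨M, hM, h⟩
    · exact h1.1.trans_le ((hM.sub (clE M (by omega))).ex_le n)
    · exact h1.2.trans_le ((hM.sub (clB M h)).ex_le n)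
  · exact ((sub34 g2).ex_le n).trans_lt (hn G hc)

lemma step7c : ∀ᶠ n : ℕ in atTop, minExtremalNumber n 7 10 < minExtremalNumber n 7 11 := by
  filter_upwards [cmp_nonbip 2 3, cmp_k25] with n hn h1
  refine step (full 2 5) rfl (by rw [card_bipG]; decide) fun G hG => h1.trans_le ?_
  by_cases hc : G.Colorable 2
  · rcases shape7 (by norm_num) hG hc with ⟨h, -⟩ | ⟨M, hM, h⟩
    · omega
    · exact (hM.sub (clC M h)).ex_le n
  · exact (sub33.ex_le n).trans (hn G hc).le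

lemma strictMonoOn_of_steps {f : ℕ → ℕ∞} {x y : ℕ} (h : ∀ l, x < l → l < y → f l < f (l + 1)) :
    StrictMonoOn f (Set.Ioc x y) := by
  intro u hu v hv huv
  induction v, huv using Nat.le_induction with
  | base => exact h u hu.1 hv.2
  | succ v huv ih =>
    exact (ih ⟨hu.1.trans huv, (Nat.le_succ v).trans hv.2⟩).trans (h v (hu.1.trans huv) hv.2)

theorem small {k : ℕ} (hk : k ≤ 7) : ∀ᶠ n : ℕ in atTop,
    StrictMonoOn (minExtremalNumber n k) (Set.Ioc k (k ^ 2 / 4)) := by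
  rcases (by omega : k ≤ 5 ∨ k = 6 ∨ k = 7) with h | rfl | rfl
  · refine Eventually.of_forall fun n => strictMonoOn_of_steps fun l h1 h2 => ?_
    interval_cases k <;> omega
  · filter_upwards [step6, top_step (k := 6) (by norm_num)] with n h1 h2
    refine strictMonoOn_of_steps fun l h3 h4 => ?_
    norm_num at h4 h2
    interval_cases l
    exacts [h1, h2]
  · filter_upwards [step7a, step7b, step7c, top_step (k := 7) (by norm_num)] with n h1 h2 h3 h4
    refine strictMonoOn_of_steps fun l h5 h6 => ?_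
    norm_num at h4 h6
    interval_cases l
    exacts [h1, h2, h3, h4]

end Pool.Agent.Work.MP_054302_co
end
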