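import Mathlib
import Pool.Prelude.Def_F_a394211a

-- merged part: Pool.Agent.Work.MP_054302_co.Base
section
/-!
Bipartite patterns, their extremal numbers and the soft comparison lemmas.
-/

open Finset SimpleGraph

namespace Pool.Agent.Work.MP_054302_co

variable {a b c d n k : ℕ} {V W : Type*}

/-- `G` contains the bipartite pattern `P` (rows `s`, columns `t`). -/
def Has (G : SimpleGraph V) (P : Fin a → Fin b → Bool) : Prop :=
  ∃ (s : Fin a → V) (t : Fin b → V), Function.Injective s ∧ Function.Injective t ∧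
    (∀ i j, s i ≠ t j) ∧ ∀ i j, P i j = true → G.Adj (s i) (t j)

/-- The graph of a pattern on `Fin (a + b)`. -/
def bipG (P : Fin a → Fin b → Bool) : SimpleGraph (Fin (a + b)) :=
  SimpleGraph.fromRel fun u v => ∃ i j, P i j = true ∧ u = Fin.castAdd b i ∧ v = Fin.natAdd a j

instance (P : Fin a → Fin b → Bool) : DecidableRel (bipG P).Adj := by
  unfold bipG; infer_instance

/-- The extremal number of a pattern. -/
noncomputable def ex (n : ℕ) (P : Fin a → Fin b → Bool) : ℕ := extremalNumber n (bipG P)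

/-- Pattern `P` sits inside pattern `M`. -/
def Sub (P : Fin a → Fin b → Bool) (M : Fin c → Fin d → Bool) : Prop :=
  ∃ (σ : Fin a → Fin c) (τ : Fin b → Fin d), Function.Injective σ ∧ Function.Injective τ ∧
    ∀ i j, P i j = true → M (σ i) (τ j) = true

/-- Transposed pattern. -/
def tr (P : Fin a → Fin b → Bool) : Fin b → Fin a → Bool := fun j i => P i j

lemma Has.sub {G : SimpleGraph V} {M : Fin c → Fin d → Bool} {P : Fin a → Fin b → Bool}
    (h : Has G M) (hs : Sub P M) : Has G P := by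
  obtain ⟨s, t, hs1, ht1, hst, hadj⟩ := h
  obtain ⟨σ, τ, h1, h2, h3⟩ := hs
  exact ⟨s ∘ σ, t ∘ τ, hs1.comp h1, ht1.comp h2, fun i j => hst _ _,
    fun i j hij => hadj _ _ (h3 i j hij)⟩

lemma Has.tr {G : SimpleGraph V} {M : Fin c → Fin d → Bool} (h : Has G M) : Has G (tr M) := by
  obtain ⟨s, t, hs1, ht1, hst, hadj⟩ := h
  exact ⟨t, s, ht1, hs1, fun i j => (hst j i).symm, fun i j hij => (hadj j i hij).symm⟩

lemma Has.of_isContained {G : SimpleGraph V} {H : SimpleGraph W} {P : Fin a → Fin b → Bool}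
    (h : Has G P) (hc : G ⊑ H) : Has H P := by
  obtain ⟨s, t, hs1, ht1, hst, hadj⟩ := h
  obtain ⟨f⟩ := hc
  exact ⟨f ∘ s, f ∘ t, f.injective.comp hs1, f.injective.comp ht1,
    fun i j h => hst i j (f.injective h), fun i j hij => f.toHom.map_adj (hadj i j hij)⟩

lemma has_bipG (P : Fin a → Fin b → Bool) : Has (bipG P) P := by
  have hne : ∀ (i : Fin a) (j : Fin b), Fin.castAdd b i ≠ Fin.natAdd a j := by
    intro i j h
    have := congrArg Fin.val h
    simp only [Fin.val_castAdd, Fin.val_natAdd] at this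
    omega
  refine ⟨Fin.castAdd b, Fin.natAdd a, Fin.castAdd_injective _ _, Fin.natAdd_injective _ _, hne,
    fun i j hij => ?_⟩
  rw [bipG, fromRel_adj]
  exact ⟨hne i j, Or.inl ⟨i, j, hij, rfl, rfl⟩⟩

lemma Has.isContained {H : SimpleGraph V} {P : Fin a → Fin b → Bool} (h : Has H P) :
    bipG P ⊑ H := by
  obtain ⟨s, t, hs1, ht1, hst, hadj⟩ := h
  refine ⟨⟨⟨Fin.append s t, ?_⟩, ?_⟩⟩
  · intro u v huv
    rw [bipG, fromRel_adj] at huv
    rcases huv.2 with ⟨i, j, hij, rfl, rfl⟩ | ⟨i, j, hij, rfl, rfl⟩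
    · simpa using hadj i j hij
    · simpa using (hadj i j hij).symm
  · exact Fin.append_injective_iff.2 ⟨hs1, ht1, hst⟩

lemma has_iff {H : SimpleGraph V} {P : Fin a → Fin b → Bool} : Has H P ↔ bipG P ⊑ H :=
  ⟨Has.isContained, fun h => (has_bipG P).of_isContained h⟩

lemma Has.ex_le {G : SimpleGraph V} {P : Fin a → Fin b → Bool} (h : Has G P) (n : ℕ) :
    ex n P ≤ extremalNumber n G := h.isContained.extremalNumber_le

lemma Sub.ex_le {M : Fin c → Fin d → Bool} {P : Fin a → Fin b → Bool} (h : Sub P M) (n : ℕ) :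
    ex n P ≤ ex n M := ((has_bipG M).sub h).ex_le n

lemma Sub.ex_le_tr {M : Fin c → Fin d → Bool} {P : Fin a → Fin b → Bool} (h : Sub P (tr M))
    (n : ℕ) : ex n P ≤ ex n M := ((has_bipG M).tr.sub h).ex_le n

/-- An extremal graph for a nonempty pattern. -/
lemma exists_extremal (P : Fin a → Fin b → Bool) (hP : ∃ i j, P i j = true) (n : ℕ) :
    ∃ (H : SimpleGraph (Fin n)) (_ : DecidableRel H.Adj), ¬ Has H P ∧
      #H.edgeFinset = ex n P := by
  have hne : bipG P ≠ ⊥ := by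
    obtain ⟨i, j, hij⟩ := hP
    obtain ⟨s, t, -, -, -, hadj⟩ := has_bipG P
    intro h
    have := hadj i j hij
    rw [h] at this
    exact this
  obtain ⟨H, inst, hH⟩ := exists_isExtremal_free (V := Fin n) hne
  refine ⟨H, inst, fun h => hH.prop h.isContained, ?_⟩
  have := card_edgeFinset_of_isExtremal_free hH
  rwa [Fintype.card_fin] at this

/-- A host graph on at most `n` vertices bounds the extremal number from below. -/
lemma host_le [Fintype V] {P : Fin a → Fin b → Bool} (hr : ∀ i, ∃ j, P i j = true)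
    (hc : ∀ j, ∃ i, P i j = true) (H : SimpleGraph V) [DecidableRel H.Adj] (hH : ¬ Has H P)
    (hn : Fintype.card V ≤ n) : #H.edgeFinset ≤ ex n P := by
  classical
  obtain ⟨f⟩ : Nonempty (V ↪ Fin n) :=
    Function.Embedding.nonempty_of_card_le (by rwa [Fintype.card_fin])
  have h1 : (bipG P).Free (H.map f) := by
    intro h
    obtain ⟨s, t, hs1, ht1, hst, hadj⟩ := has_iff.2 h
    have h2 : ∀ i, ∃ u, f u = s i := fun i => by
      obtain ⟨j, hij⟩ := hr i
      obtain ⟨u, v, -, hu, -⟩ := (map_adj _ _ _ _).1 (hadj i j hij)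
      exact ⟨u, hu⟩
    have h3 : ∀ j, ∃ u, f u = t j := fun j => by
      obtain ⟨i, hij⟩ := hc j
      obtain ⟨u, v, -, -, hv⟩ := (map_adj _ _ _ _).1 (hadj i j hij)
      exact ⟨v, hv⟩
    choose s' hs' using h2
    choose t' ht' using h3
    refine hH ⟨s', t', fun i j hij => hs1 (by rw [← hs', ← hs', hij]),
      fun i j hij => ht1 (by rw [← ht', ← ht', hij]),
      fun i j hij => hst i j (by rw [← hs', ← ht', hij]), fun i j hij => ?_⟩
    have := hadj i j hij
    rw [← hs', ← ht'] at this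
    exact (map_adj_apply).1 this
  have h2 := card_edgeFinset_le_extremalNumber h1
  rw [Fintype.card_fin, card_edgeFinset_map] at h2
  exact h2

/-- Degree form of `host_le`. -/
lemma host_deg [Fintype V] {P : Fin a → Fin b → Bool} (hr : ∀ i, ∃ j, P i j = true)
    (hc : ∀ j, ∃ i, P i j = true) (H : SimpleGraph V) [DecidableRel H.Adj] (hH : ¬ Has H P)
    (hn : Fintype.card V ≤ n) {δ : ℕ} (hδ : ∀ v, δ ≤ H.degree v) :
    Fintype.card V * δ ≤ 2 * ex n P := by
  have h1 := host_le hr hc H hH hn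
  have h2 := H.sum_degrees_eq_twice_card_edges
  have h3 : ∑ _v : V, δ ≤ ∑ v, H.degree v := sum_le_sum fun v _ => hδ v
  rw [sum_const, card_univ, smul_eq_mul] at h3
  omega

/-- A graph that is not bipartite has extremal number at least about `n ^ 2 / 4`. -/
lemma nonbip {G : SimpleGraph V} (hG : ¬ G.Colorable 2) (n : ℕ) :
    n ^ 2 ≤ 4 * extremalNumber n G + 4 := by
  have h1 : G.Free (turanGraph n 2) := by
    rintro ⟨f⟩
    refine hG ⟨Coloring.mk (fun v => ⟨(f v : ℕ) % 2, Nat.mod_lt _ (by norm_num)⟩) ?_⟩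
    intro u v huv h
    have := f.toHom.map_adj huv
    rw [turanGraph_adj] at this
    exact this (congrArg Fin.val h)
  have h2 := card_edgeFinset_le_extremalNumber h1
  rw [Fintype.card_fin, card_edgeFinset_turanGraph] at h2
  have h3 : n % 2 = 0 ∨ n % 2 = 1 := by omega
  rcases h3 with h | h <;> rw [h] at h2 <;> norm_num at h2 <;> omega

/-- The complete pattern. -/
def full (a b : ℕ) : Fin a → Fin b → Bool := fun _ _ => true

/-- The complete pattern minus one entry. -/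
def fulle (a b : ℕ) : Fin (a + 1) → Fin (b + 1) → Bool := fun i j => !(decide (i = 0 ∧ j = 0))

/-- Edge transitivity: adding an edge to an extremal graph. -/
lemma fulle_lt (a b n : ℕ) (hb : 0 < b) (hn : a + b + 2 ≤ n) :
    ex n (fulle a b) < ex n (full (a + 1) (b + 1)) := by
  classical
  obtain ⟨H, inst, hH, he⟩ := exists_extremal (fulle a b)
    ⟨0, Fin.last b, by simp [fulle]; omega⟩ n
  obtain ⟨u, v, huv, hna⟩ : ∃ u v : Fin n, u ≠ v ∧ ¬ H.Adj u v := by
    by_contra hcon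
    push Not at hcon
    obtain ⟨f⟩ : Nonempty (Fin (a + 1 + (b + 1)) ↪ Fin n) :=
      Function.Embedding.nonempty_of_card_le (by simp only [Fintype.card_fin]; omega)
    refine hH (has_iff.2 ⟨⟨⟨f, fun {x y} hxy => hcon _ _ (f.injective.ne hxy.ne)⟩, f.injective⟩⟩)
  have h1 : ¬ Has (H ⊔ edge u v) (full (a + 1) (b + 1)) := by
    rintro ⟨s, t, hs1, ht1, hst, hadj⟩
    by_cases hex : ∃ i j, s(s i, t j) = s(u, v)
    · obtain ⟨i, j, hij⟩ := hex
      refine hH ⟨s ∘ Equiv.swap 0 i, t ∘ Equiv.swap 0 j, hs1.comp (Equiv.injective _),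
        ht1.comp (Equiv.injective _), fun _ _ => hst _ _, fun x y hxy => ?_⟩
      rcases (sup_adj _ _ _ _).1 (hadj (Equiv.swap 0 i x) (Equiv.swap 0 j y) rfl) with h | h
      · exact h
      · exfalso
        rw [edge_adj] at h
        have h2 : s(s (Equiv.swap 0 i x), t (Equiv.swap 0 j y)) = s(s i, t j) := by
          rw [hij]
          rcases h.1 with ⟨h3, h4⟩ | ⟨h3, h4⟩ <;> rw [h3, h4]
          exact Sym2.eq_swap
        rcases Sym2.eq_iff.1 h2 with ⟨h3, h4⟩ | ⟨h3, -⟩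
        · have h5 := hs1 h3
          have h6 := ht1 h4
          rw [Equiv.swap_apply_eq_iff, Equiv.swap_apply_right] at h5 h6
          simp [fulle, h5, h6] at hxy
        · exact hst _ _ h3
    · push Not at hex
      refine hH ⟨s, t, hs1, ht1, hst, fun x y _ => ?_⟩
      rcases (sup_adj _ _ _ _).1 (hadj x y rfl) with h | h
      · exact h
      · exfalso
        rw [edge_adj] at h
        refine hex x y ?_
        rcases h.1 with ⟨h3, h4⟩ | ⟨h3, h4⟩ <;> rw [h3, h4]
        exact Sym2.eq_swap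
  have h2 := host_le (n := n) (fun _ => ⟨0, rfl⟩) (fun _ => ⟨0, rfl⟩) (H ⊔ edge u v) h1
    (by rw [Fintype.card_fin])
  have h3 : ∀ (K : SimpleGraph (Fin n)) [DecidableRel K.Adj], H < K →
      #H.edgeFinset < #K.edgeFinset := fun K _ hK =>
    card_lt_card (edgeFinset_ssubset_edgeFinset.2 hK)
  have h4 := h3 (H ⊔ edge u v) (by
    refine lt_of_le_of_ne le_sup_left fun h => hna ?_
    rw [h, sup_adj, edge_adj]
    exact Or.inr ⟨Or.inl ⟨rfl, rfl⟩, huv⟩)
  omega

/-- One strict step of the minimum. -/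
lemma step {l l' : ℕ} (P : Fin a → Fin b → Bool) (hk : a + b = k)
    (hl : #(bipG P).edgeFinset = l)
    (h : ∀ G : SimpleGraph (Fin k), G.edgeSet.ncard = l' → ex n P < extremalNumber n G) :
    Nd4bc9c34.minExtremalNumber n k l < Nd4bc9c34.minExtremalNumber n k l' := by
  subst hk
  have h1 : Nd4bc9c34.minExtremalNumber n (a + b) l ≤ (ex n P : ℕ∞) := by
    refine iInf₂_le (f := fun (G : SimpleGraph (Fin (a + b))) (_ : G.edgeSet.ncard = l) =>
      (extremalNumber n G : ℕ∞)) (bipG P) ?_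
    rw [← hl, ← coe_edgeFinset, Set.ncard_coe_finset]
  have h2 : ((ex n P + 1 : ℕ) : ℕ∞) ≤ Nd4bc9c34.minExtremalNumber n (a + b) l' :=
    le_iInf₂ fun G hG => by exact_mod_cast h G hG
  refine lt_of_le_of_lt h1 (lt_of_lt_of_le ?_ h2)
  exact_mod_cast Nat.lt_succ_self _

end Pool.Agent.Work.MP_054302_co
end

-- merged part: Pool.Agent.Work.MP_054302_co.Upper
section
/-!
Upper bounds for four small bipartite graphs.
-/

open Finset SimpleGraph

namespace Pool.Agent.Work.MP_054302_co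

variable {n : ℕ}

/-- Common neighbourhood. -/
def cn (H : SimpleGraph (Fin n)) [DecidableRel H.Adj] (u v : Fin n) : Finset (Fin n) :=
  univ.filter fun w => H.Adj u w ∧ H.Adj v w

lemma mem_cn {H : SimpleGraph (Fin n)} [DecidableRel H.Adj] {u v w : Fin n} :
    w ∈ cn H u v ↔ H.Adj u w ∧ H.Adj v w := by simp [cn]

lemma cn_le (H : SimpleGraph (Fin n)) [DecidableRel H.Adj] (u v : Fin n) :
    #(cn H u v) ≤ H.degree u := by
  rw [← card_neighborFinset_eq_degree]
  exact card_le_card fun w hw => by simpa using (mem_cn.1 hw).1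

lemma deg_eq (H : SimpleGraph (Fin n)) [DecidableRel H.Adj] (w : Fin n) :
    H.degree w = ∑ u, if H.Adj u w then 1 else 0 := by
  rw [← card_neighborFinset_eq_degree, ← card_filter]
  congr 1
  ext u
  simp [adj_comm]

lemma sum_cn (H : SimpleGraph (Fin n)) [DecidableRel H.Adj] :
    ∑ u, ∑ v, #(cn H u v) = ∑ w, H.degree w ^ 2 := by
  simp_rw [cn, card_filter]
  rw [sum_congr rfl fun u _ => sum_comm, sum_comm]
  refine sum_congr rfl fun w _ => ?_
  rw [deg_eq, sq, sum_mul_sum]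
  refine sum_congr rfl fun u _ => sum_congr rfl fun v _ => ?_
  by_cases h1 : H.Adj u w <;> by_cases h2 : H.Adj v w <;> simp [h1, h2]

lemma count (H : SimpleGraph (Fin n)) [DecidableRel H.Adj] (A B : ℕ)
    (h : ∀ u, ∑ v, #(cn H u v) ≤ A * n + B * H.degree u) :
    (2 * #H.edgeFinset) ^ 2 ≤ n * (A * n ^ 2 + B * (2 * #H.edgeFinset)) := by
  rw [← H.sum_degrees_eq_twice_card_edges]
  have h1 := sq_sum_le_card_mul_sum_sq (s := (univ : Finset (Fin n))) (f := fun w => H.degree w)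
  rw [card_univ, Fintype.card_fin, ← sum_cn] at h1
  refine h1.trans (Nat.mul_le_mul_left _ ?_)
  refine (sum_le_sum fun u _ => h u).trans (le_of_eq ?_)
  rw [sum_add_distrib, sum_const, card_univ, Fintype.card_fin, smul_eq_mul, ← mul_sum]
  ring

/-- A bound on codegrees off a small exceptional set. -/
lemma sum_cn_le (H : SimpleGraph (Fin n)) [DecidableRel H.Adj] (u : Fin n) (X : Finset (Fin n))
    (A : ℕ) (h : ∀ v, v ∉ X → #(cn H u v) ≤ A) :
    ∑ v, #(cn H u v) ≤ A * n + #X * H.degree u := by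
  have h1 : ∀ v, #(cn H u v) ≤ A + if v ∈ X then H.degree u else 0 := fun v => by
    by_cases hv : v ∈ X
    · have := cn_le H u v
      simp only [hv, if_true]; omega
    · have := h v hv
      omega
  refine (sum_le_sum fun v _ => h1 v).trans (le_of_eq ?_)
  rw [sum_add_distrib, sum_const, card_univ, Fintype.card_fin, smul_eq_mul, sum_ite_mem,
    univ_inter, sum_const, smul_eq_mul, mul_comm n A]

/-- Two vertices with `b` common neighbours. -/
lemma has_full_two {b : ℕ} (H : SimpleGraph (Fin n)) [DecidableRel H.Adj]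
    {u v : Fin n} (huv : u ≠ v) (h : b ≤ #(cn H u v)) : Has H (full 2 b) := by
  let t := (cn H u v).orderEmbOfCardLe h
  have ht : ∀ j, H.Adj u (t j) ∧ H.Adj v (t j) := fun j =>
    mem_cn.1 ((cn H u v).orderEmbOfCardLe_mem h j)
  have hadj : ∀ i j, H.Adj (![u, v] i) (t j) := fun i j => by
    fin_cases i
    · exact (ht j).1
    · exact (ht j).2
  refine ⟨![u, v], t, ?_, t.injective, fun i j => (hadj i j).ne, fun i j _ => hadj i j⟩
  intro i j hij
  fin_cases i <;> fin_cases j <;> simp_all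

lemma up_k25 (n : ℕ) :
    (2 * ex n (full 2 5)) ^ 2 ≤ n * (4 * n ^ 2 + 1 * (2 * ex n (full 2 5))) := by
  obtain ⟨H, inst, hH, he⟩ := exists_extremal (full 2 5) ⟨0, 0, rfl⟩ n
  rw [← he]
  refine count H 4 1 fun u => ?_
  have := sum_cn_le H u {u} 4 fun v hv => by
    by_contra hc
    exact hH (has_full_two H (u := u) (v := v) (fun h => hv (by simp [h])) (by omega))
  simpa using this

lemma kst_count (a b : ℕ) (H : SimpleGraph (Fin n)) [DecidableRel H.Adj]
    (hH : ¬ Has H (full a (b + 1))) : ∑ w, (H.degree w).choose a ≤ b * n.choose a := by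
  have h1 : ∀ w, (H.degree w).choose a =
      ∑ S ∈ powersetCard a (univ : Finset (Fin n)), if S ⊆ H.neighborFinset w then 1 else 0 := by
    intro w
    rw [← card_filter, ← card_neighborFinset_eq_degree, ← card_powersetCard]
    congr 1
    ext S
    simp [mem_powersetCard, and_comm]
  rw [sum_congr rfl fun w _ => h1 w, sum_comm]
  have h2 : ∀ S ∈ powersetCard a (univ : Finset (Fin n)),
      ∑ w, (if S ⊆ H.neighborFinset w then 1 else 0) ≤ b := fun S hS => by
    rw [← card_filter]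
    by_contra hc
    have h5 := Nat.succ_le_of_lt (not_le.1 hc)
    let s := S.orderEmbOfFin (mem_powersetCard.1 hS).2
    let t := (univ.filter fun w => S ⊆ H.neighborFinset w).orderEmbOfCardLe h5
    have hadj : ∀ i j, H.Adj (s i) (t j) := fun i j => by
      have h6 := (mem_filter.1 (orderEmbOfCardLe_mem _ h5 j)).2
        (S.orderEmbOfFin_mem (mem_powersetCard.1 hS).2 i)
      exact ((mem_neighborFinset _ _ _).1 h6).symm
    exact hH ⟨s, t, s.injective, t.injective, fun i j => (hadj i j).ne, fun i j _ => hadj i j⟩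
  refine (sum_le_sum h2).trans (le_of_eq ?_)
  rw [sum_const, card_powersetCard, card_univ, Fintype.card_fin, smul_eq_mul, mul_comm]

lemma kst (a b n : ℕ) (h1 : 8 * (a + 1) ≤ n) (h2 : 8 * (8 ^ (a + 1) * b) < n) :
    4 * ex n (full (a + 1) (b + 1)) + 4 < n ^ 2 := by
  obtain ⟨H, inst, hH, he⟩ := exists_extremal (full (a + 1) (b + 1)) ⟨0, 0, rfl⟩ n
  by_contra hc
  have h3 := kst_count (a + 1) b H hH
  set B := univ.filter fun w => n / 4 ≤ H.degree w
  have h4 : ∑ w, H.degree w ≤ ∑ w, (n / 4 + if n / 4 ≤ H.degree w then n else 0) :=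
    sum_le_sum fun w _ => by
      have := H.degree_lt_card_verts w
      rw [Fintype.card_fin] at this
      split_ifs <;> omega
  rw [H.sum_degrees_eq_twice_card_edges, he, sum_add_distrib, ← sum_filter, sum_const, sum_const,
    card_univ, Fintype.card_fin, smul_eq_mul, smul_eq_mul] at h4
  have h5 : n ≤ 8 * #B := by
    by_contra h5
    have h6 := Nat.mul_le_mul_left n (Nat.mul_div_le n 4)
    have h7 := Nat.mul_le_mul_left n (not_le.1 h5).le
    have h8 : 8 * 8 ≤ n * n := Nat.mul_le_mul (by omega) (by omega)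
    change _ ≤ _ + #B * n at h4
    nlinarith
  have h6 : #B * (n / 4).choose (a + 1) ≤ b * n.choose (a + 1) := by
    refine le_trans ?_ ((sum_le_sum_of_subset (subset_univ B)).trans h3)
    rw [← smul_eq_mul, ← sum_const]
    exact sum_le_sum fun w hw => Nat.choose_le_choose _ (mem_filter.1 hw).2
  have h7 : #B * (n / 4).descFactorial (a + 1) ≤ b * n.descFactorial (a + 1) := by
    rw [Nat.descFactorial_eq_factorial_mul_choose, Nat.descFactorial_eq_factorial_mul_choose,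
      mul_left_comm, mul_left_comm b]
    exact Nat.mul_le_mul_left _ h6
  have h8 := Nat.pow_sub_le_descFactorial (n / 4) (a + 1)
  have h9 := Nat.descFactorial_le_pow n (a + 1)
  have h10 : n ^ (a + 1) ≤ 8 ^ (a + 1) * (n / 4 + 1 - (a + 1)) ^ (a + 1) := by
    rw [← mul_pow]
    exact Nat.pow_le_pow_left (by omega) _
  have h11 : #B * n ^ (a + 1) ≤ 8 ^ (a + 1) * b * n ^ (a + 1) :=
    calc #B * n ^ (a + 1) ≤ #B * (8 ^ (a + 1) * (n / 4).descFactorial (a + 1)) :=
          Nat.mul_le_mul_left _ (h10.trans (Nat.mul_le_mul_left _ h8))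
      _ = 8 ^ (a + 1) * (#B * (n / 4).descFactorial (a + 1)) := by ring
      _ ≤ 8 ^ (a + 1) * (b * n ^ (a + 1)) :=
          Nat.mul_le_mul_left _ (h7.trans (Nat.mul_le_mul_left _ h9))
      _ = _ := by ring
  have h12 := Nat.le_of_mul_le_mul_right h11 (Nat.pow_pos (by omega))
  omega

lemma inj3 {V : Type*} {x y z : V} (h1 : x ≠ y) (h2 : x ≠ z) (h3 : y ≠ z) :
    Function.Injective ![x, y, z] := by
  intro i j hij
  fin_cases i <;> fin_cases j <;> simp_all

lemma inj4 {V : Type*} {x y z w : V} (h1 : x ≠ y) (h2 : x ≠ z) (h3 : x ≠ w) (h4 : y ≠ z)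
    (h5 : y ≠ w) (h6 : z ≠ w) : Function.Injective ![x, y, z, w] := by
  intro i j hij
  fin_cases i <;> fin_cases j <;> simp_all

/-- `K_{3,4}` minus a path with two edges and a disjoint edge. -/
def g2 : Fin 3 → Fin 4 → Bool :=
  ![![false, true, false, true], ![true, false, true, true], ![true, true, true, true]]

/-- Two four-cycles sharing a vertex. -/
def f8 : Fin 3 → Fin 4 → Bool :=
  ![![true, true, true, true], ![true, true, false, false], ![false, false, true, true]]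

lemma mk_g2 {V : Type*} {H : SimpleGraph V} {a1 a2 a3 b1 b2 b3 b4 : V} (h1 : a1 ≠ a2)
    (h2 : a1 ≠ a3) (h3 : a2 ≠ a3) (g1 : b1 ≠ b2) (g2' : b1 ≠ b3) (g3 : b1 ≠ b4) (g4 : b2 ≠ b3)
    (g5 : b2 ≠ b4) (g6 : b3 ≠ b4) (n1 : a1 ≠ b1) (n2 : a1 ≠ b3) (n3 : a2 ≠ b2)
    (e1 : H.Adj a1 b2) (e2 : H.Adj a1 b4) (e3 : H.Adj a2 b1) (e4 : H.Adj a2 b3)
    (e5 : H.Adj a2 b4) (e6 : H.Adj a3 b1) (e7 : H.Adj a3 b2) (e8 : H.Adj a3 b3)
    (e9 : H.Adj a3 b4) : Has H g2 := by
  refine ⟨![a1, a2, a3], ![b1, b2, b3, b4], inj3 h1 h2 h3, inj4 g1 g2' g3 g4 g5 g6, ?_, ?_⟩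
  · intro i j
    fin_cases i <;> fin_cases j
    exacts [n1, e1.ne, n2, e2.ne, e3.ne, n3, e4.ne, e5.ne, e6.ne, e7.ne, e8.ne, e9.ne]
  · intro i j hij
    fin_cases i <;> fin_cases j <;> first | assumption | exact absurd hij (by decide)

lemma mk_f8 {V : Type*} {H : SimpleGraph V} {a1 a2 a3 b1 b2 b3 b4 : V} (h1 : a1 ≠ a2)
    (h2 : a1 ≠ a3) (h3 : a2 ≠ a3) (g1 : b1 ≠ b2) (g2' : b1 ≠ b3) (g3 : b1 ≠ b4) (g4 : b2 ≠ b3)
    (g5 : b2 ≠ b4) (g6 : b3 ≠ b4) (n1 : a2 ≠ b3) (n2 : a2 ≠ b4) (n3 : a3 ≠ b1) (n4 : a3 ≠ b2)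
    (e1 : H.Adj a1 b1) (e2 : H.Adj a1 b2) (e3 : H.Adj a1 b3) (e4 : H.Adj a1 b4)
    (e5 : H.Adj a2 b1) (e6 : H.Adj a2 b2) (e7 : H.Adj a3 b3) (e8 : H.Adj a3 b4) : Has H f8 := by
  refine ⟨![a1, a2, a3], ![b1, b2, b3, b4], inj3 h1 h2 h3, inj4 g1 g2' g3 g4 g5 g6, ?_, ?_⟩
  · intro i j
    fin_cases i <;> fin_cases j
    exacts [e1.ne, e2.ne, e3.ne, e4.ne, e5.ne, e6.ne, n1, n2, n3, n4, e7.ne, e8.ne]
  · intro i j hij
    fin_cases i <;> fin_cases j <;> first | assumption | exact absurd hij (by decide)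

/-- Heavy pairs. -/
def Heavy (H : SimpleGraph (Fin n)) [DecidableRel H.Adj] (u v : Fin n) : Prop :=
  v ≠ u ∧ 3 ≤ #(cn H u v) ∧ (¬ H.Adj u v ∨ 5 ≤ #(cn H u v))

section

variable {H : SimpleGraph (Fin n)} [DecidableRel H.Adj] {u b v v' : Fin n}

lemma heavy_two (hH : ¬ Has H g2) (hub : H.Adj u b) (hv : Heavy H u v) (hv' : Heavy H u v')
    (hvb : H.Adj v b) (hvb' : H.Adj v' b) (hne : v ≠ v') {x : Fin n} (hx : x ∈ cn H u v')
    (hxb : x ≠ b) (hxv : x ≠ v) : #(cn H u v \ {b, x, v'}) ≤ 1 := by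
  by_contra hc
  obtain ⟨y, hy, z, hz, hyz⟩ := one_lt_card.1 (not_le.1 hc)
  simp only [mem_sdiff, mem_cn, mem_insert, mem_singleton, not_or] at hy hz
  rw [mem_cn] at hx
  exact hH (mk_g2 (a1 := v') (a2 := v) (a3 := u) (b1 := y) (b2 := x) (b3 := z) (b4 := b)
    hne.symm hv'.1 hv.1 hy.2.2.1 hyz hy.2.1 (Ne.symm hz.2.2.1) hxb hz.2.1 (Ne.symm hy.2.2.2)
    (Ne.symm hz.2.2.2) hxv.symm hx.2 hvb' hy.1.2 hz.1.2 hvb hy.1.1 hx.1 hz.1.1 hub)

lemma heavy_nadj (hH : ¬ Has H g2) (hub : H.Adj u b) (hv : Heavy H u v) (hv' : Heavy H u v')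
    (hvb : H.Adj v b) (hvb' : H.Adj v' b) (hne : v ≠ v') : ¬ H.Adj u v := by
  intro hadj
  have h5 := hv.2.2.resolve_left (not_not.2 hadj)
  have h1 := le_card_sdiff {b, v} (cn H u v')
  have h2 : #({b, v} : Finset (Fin n)) ≤ 2 := card_le_two
  have h3 := hv'.2.1
  obtain ⟨x, hx⟩ := card_pos.1 (by omega : 0 < #(cn H u v' \ {b, v}))
  simp only [mem_sdiff, mem_insert, mem_singleton, not_or] at hx
  have h4 := heavy_two hH hub hv hv' hvb hvb' hne hx.1 hx.2.1 hx.2.2
  have h6 := le_card_sdiff {b, x, v'} (cn H u v)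
  have h7 : #({b, x, v'} : Finset (Fin n)) ≤ 3 := card_le_three
  omega

lemma heavy_mem (hH : ¬ Has H g2) (hub : H.Adj u b) (hv : Heavy H u v) (hv' : Heavy H u v')
    (hvb : H.Adj v b) (hvb' : H.Adj v' b) (hne : v ≠ v') {x : Fin n} (hx : x ∈ cn H u v')
    (hxb : x ≠ b) : x ∈ cn H u v := by
  have h1 := heavy_nadj hH hub hv hv' hvb hvb' hne
  have h2 := heavy_nadj hH hub hv' hv hvb' hvb hne.symm
  have hxv : x ≠ v := fun h => h1 (h ▸ (mem_cn.1 hx).1)
  have h4 := heavy_two hH hub hv hv' hvb hvb' hne hx hxb hxv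
  by_contra hc
  have h5 : cn H u v \ {b} ⊆ cn H u v \ {b, x, v'} := by
    intro y hy
    simp only [mem_sdiff, mem_insert, mem_singleton, not_or] at hy ⊢
    exact ⟨hy.1, hy.2, fun h => hc (h ▸ hy.1), fun h => h2 (h ▸ (mem_cn.1 hy.1).1)⟩
  have h6 := card_le_card h5
  have h7 := le_card_sdiff {b} (cn H u v)
  have h8 := hv.2.1
  rw [card_singleton] at h7
  omega

open Classical in
lemma heavy_le (hH : ¬ Has H g2) (hub : H.Adj u b) :
    #(univ.filter fun v => Heavy H u v ∧ H.Adj v b) ≤ 2 := by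
  by_contra hc
  obtain ⟨v1, v2, v3, h1, h2, h3, h12, h13, h23⟩ := two_lt_card_iff.1 (not_le.1 hc)
  simp only [mem_filter, mem_univ, true_and] at h1 h2 h3
  have h7 := le_card_sdiff {b} (cn H u v1)
  have h8 := h1.1.2.1
  rw [card_singleton] at h7
  obtain ⟨y, hy, z, hz, hyz⟩ := one_lt_card.1 (by omega : 1 < #(cn H u v1 \ {b}))
  simp only [mem_sdiff, mem_singleton] at hy hz
  have y1 := mem_cn.1 hy.1
  have z1 := mem_cn.1 hz.1
  have y2 := mem_cn.1 (heavy_mem hH hub h2.1 h1.1 h2.2 h1.2 h12.symm hy.1 hy.2)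
  have z2 := mem_cn.1 (heavy_mem hH hub h2.1 h1.1 h2.2 h1.2 h12.symm hz.1 hz.2)
  have y3 := mem_cn.1 (heavy_mem hH hub h3.1 h1.1 h3.2 h1.2 h13.symm hy.1 hy.2)
  have z3 := mem_cn.1 (heavy_mem hH hub h3.1 h1.1 h3.2 h1.2 h13.symm hz.1 hz.2)
  exact hH (mk_g2 (a1 := b) (a2 := y) (a3 := z) (b1 := u) (b2 := v1) (b3 := v2) (b4 := v3)
    (Ne.symm hy.2) (Ne.symm hz.2) hyz (Ne.symm h1.1.1) (Ne.symm h2.1.1) (Ne.symm h3.1.1) h12 h13
    h23 hub.ne.symm h2.2.ne.symm y1.2.ne.symm h1.2.symm h3.2.symm y1.1.symm y2.2.symm y3.2.symm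
    z1.1.symm z1.2.symm z2.2.symm z3.2.symm)

end

lemma up_g2 (n : ℕ) : (2 * ex n g2) ^ 2 ≤ n * (2 * n ^ 2 + 7 * (2 * ex n g2)) := by
  classical
  obtain ⟨H, inst, hH, he⟩ := exists_extremal g2 ⟨0, 1, rfl⟩ n
  rw [← he]
  refine count H 2 7 fun u => ?_
  have h1 : ∀ v, #(cn H u v) ≤ 2 + (if v = u then H.degree u else 0) +
      4 * (if H.Adj v u then 1 else 0) +
      ∑ b, if H.Adj u b ∧ Heavy H u v ∧ H.Adj v b then 1 else 0 := fun v => by
    by_cases hv : Heavy H u v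
    · have : #(cn H u v) = ∑ b, if H.Adj u b ∧ Heavy H u v ∧ H.Adj v b then 1 else 0 := by
        rw [cn, card_filter]
        simp only [hv, true_and]
      omega
    · by_cases h2 : v = u
      · have := cn_le H u v
        rw [if_pos h2]; omega
      · simp only [Heavy, not_and_or, not_or, not_not, not_le] at hv
        rcases hv with h | h | h
        · exact absurd h h2
        · omega
        · rw [if_pos h.1.symm]; omega
  refine (sum_le_sum fun v _ => h1 v).trans ?_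
  rw [sum_add_distrib, sum_add_distrib, sum_add_distrib, ← mul_sum, ← deg_eq, sum_comm]
  have h2 : ∑ b, ∑ v, (if H.Adj u b ∧ Heavy H u v ∧ H.Adj v b then 1 else 0) ≤
      ∑ b, 2 * (if H.Adj b u then 1 else 0) := by
    refine sum_le_sum fun b _ => ?_
    by_cases hb : H.Adj u b
    · have := heavy_le hH hb
      rw [card_filter] at this
      simpa [hb, hb.symm] using this
    · simp [hb]
  rw [← mul_sum, ← deg_eq] at h2
  simp only [sum_const, card_univ, Fintype.card_fin, smul_eq_mul, sum_ite_eq', mem_univ, if_true]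
  omega

lemma up_f8 (n : ℕ) : ∃ e, ex n f8 ≤ e + 3 * n ∧ (2 * e) ^ 2 ≤ n * (1 * n ^ 2 + 4 * (2 * e)) := by
  classical
  obtain ⟨H, inst, hH, he⟩ := exists_extremal f8 ⟨0, 0, rfl⟩ n
  have h1 : ∀ u, ∃ X : Finset (Fin n), #X ≤ 3 ∧ ∀ w, w ≠ u → w ∉ X → ∀ y z, y ≠ z → y ∉ X →
      z ∉ X → H.Adj u y → H.Adj u z → H.Adj w y → H.Adj w z → False := fun u => by
    by_cases hc : ∃ v y z, v ≠ u ∧ y ≠ z ∧ H.Adj u y ∧ H.Adj u z ∧ H.Adj v y ∧ H.Adj v z
    · obtain ⟨v, y, z, h1, h2, h3, h4, h5, h6⟩ := hc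
      refine ⟨{v, y, z}, card_le_three, fun w hw hwX y' z' hyz hy hz e1 e2 e3 e4 => ?_⟩
      simp only [mem_insert, mem_singleton, not_or] at hwX hy hz
      exact hH (mk_f8 (a1 := u) (a2 := v) (a3 := w) (b1 := y) (b2 := z) (b3 := y') (b4 := z')
        h1.symm hw.symm (Ne.symm hwX.1) h2 (Ne.symm hy.2.1) (Ne.symm hz.2.1) (Ne.symm hy.2.2)
        (Ne.symm hz.2.2) hyz (Ne.symm hy.1) (Ne.symm hz.1) hwX.2.1 hwX.2.2 h3 h4 e1 e2 h5 h6 e3 e4)
    · exact ⟨∅, by simp, fun w hw _ y z hyz _ _ e1 e2 e3 e4 =>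
        hc ⟨w, y, z, hw, hyz, e1, e2, e3, e4⟩⟩
  choose X hX3 hX using h1
  let K : SimpleGraph (Fin n) :=
    { Adj := fun u v => H.Adj u v ∧ v ∉ X u ∧ u ∉ X v
      symm := ⟨fun u v h => ⟨h.1.symm, h.2.2, h.2.1⟩⟩
      loopless := ⟨fun u h => h.1.ne rfl⟩ }
  refine ⟨#K.edgeFinset, ?_, count K 1 4 fun u => ?_⟩
  · have h2 : ∀ u, H.degree u ≤ K.degree u + 3 + ∑ v, if u ∈ X v then 1 else 0 := fun u => by
      rw [← card_filter, ← card_neighborFinset_eq_degree, ← card_neighborFinset_eq_degree]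
      have h3 : H.neighborFinset u ⊆ K.neighborFinset u ∪ X u ∪ univ.filter fun v => u ∈ X v := by
        intro v hv
        simp only [mem_neighborFinset, mem_union, mem_filter, mem_univ, true_and] at hv ⊢
        by_cases h4 : v ∈ X u
        · exact Or.inl (Or.inr h4)
        by_cases h5 : u ∈ X v
        · exact Or.inr h5
        exact Or.inl (Or.inl ⟨hv, h4, h5⟩)
      have h4 := (card_le_card h3).trans (card_union_le _ _)
      have h5 := card_union_le (K.neighborFinset u) (X u)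
      have h6 := hX3 u
      omega
    have h3 := sum_le_sum fun u (_ : u ∈ univ) => h2 u
    rw [sum_add_distrib, sum_add_distrib, sum_comm, H.sum_degrees_eq_twice_card_edges,
      K.sum_degrees_eq_twice_card_edges, he] at h3
    have h4 : ∑ v, ∑ u, (if u ∈ X v then 1 else 0) ≤ ∑ _v : Fin n, 3 :=
      sum_le_sum fun v _ => by simpa using hX3 v
    simp only [sum_const, card_univ, Fintype.card_fin, smul_eq_mul] at h3 h4
    omega
  · have h2 := sum_cn_le K u (insert u (X u)) 1 fun w hw => by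
      rw [mem_insert, not_or] at hw
      refine card_le_one.2 fun y hy z hz => ?_
      by_contra hyz
      rw [mem_cn] at hy hz
      exact hX u w hw.1 hw.2 y z hyz hy.1.2.1 hz.1.2.1 hy.1.1 hz.1.1 hy.2.1 hz.2.1
    have h3 := (card_insert_le u (X u)).trans (Nat.succ_le_succ (hX3 u))
    exact h2.trans (Nat.add_le_add_left (Nat.mul_le_mul_right _ h3) _)

end Pool.Agent.Work.MP_054302_co
end
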